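import Pool.Agent.Helper98_CM.CFN

set_option autoImplicit false
set_option linter.unusedSectionVars false

noncomputable section

namespace Pool.Agent.Helper95_CM.H98

open MvPolynomial

section
variable {n : ℕ} {R : Type} [CommRing R]

/-- homogenization: `x^u ↦ T^a Π y_k^(u_k) (1+y_k)^(Ma-u_k)` -/
def Hm (M a : ℕ) : MvPolynomial (Fin n) R →+ PP n R :=
  sx (fun u => (AddMonoidHom.mulRight (Ep R a u (fun k => M * a - u k))).comp
    (C : R →+* PP n R).toAddMonoidHom)

lemma Hm_monomial (M a : ℕ) (u : Fin n →₀ ℕ) (r : R) :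
    Hm M a (monomial u r) = C r * Ep R a u (fun k => M * a - u k) := by
  unfold Hm
  rw [sx_monomial]
  rfl

lemma Hm_apply (M a : ℕ) (g : MvPolynomial (Fin n) R) :
    Hm M a g = ∑ u ∈ g.support, C (coeff u g) * Ep R a u (fun k => M * a - u k) := by
  conv_lhs => rw [as_sum g]
  rw [map_sum]
  apply Finset.sum_congr rfl
  intro u _
  rw [Hm_monomial]

lemma Hm_mul (M a b : ℕ) (f g : MvPolynomial (Fin n) R)
    (hf : ∀ u ∈ f.support, ∀ k, u k ≤ M * a) (hg : ∀ u ∈ g.support, ∀ k, u k ≤ M * b) :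
    Hm M a f * Hm M b g = Hm M (a + b) (f * g) := by
  have e : f * g = ∑ u ∈ f.support, ∑ v ∈ g.support, monomial (u + v) (coeff u f * coeff v g) := by
    conv_lhs => rw [as_sum f, as_sum g]
    rw [Finset.sum_mul_sum]
    apply Finset.sum_congr rfl
    intro u _
    apply Finset.sum_congr rfl
    intro v _
    rw [monomial_mul]
  rw [e, map_sum, Hm_apply, Hm_apply, Finset.sum_mul_sum]
  apply Finset.sum_congr rfl
  intro u hu
  rw [map_sum]
  apply Finset.sum_congr rfl
  intro v hv
  rw [Hm_monomial, C_mul]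
  have h1 : Ep R a u (fun k => M * a - u k) * Ep R b v (fun k => M * b - v k) =
      Ep R (a + b) (u + v : Fin n →₀ ℕ) (fun k => M * (a + b) - (u + v : Fin n →₀ ℕ) k) := by
    apply Ep_mul' rfl
    · intro k; rfl
    · intro k
      have h1 := hf u hu k
      have h2 := hg v hv k
      rw [Finsupp.add_apply, mul_add]
      omega
  rw [← h1]
  ring

lemma Hm_one (M : ℕ) : Hm M 0 (1 : MvPolynomial (Fin n) R) = 1 := by
  have : (1 : MvPolynomial (Fin n) R) = monomial 0 1 := rfl
  rw [this, Hm_monomial]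
  unfold Ep
  simp

lemma deg_support {f : MvPolynomial (Fin n) R} {N : ℕ} (h : ∀ k, degreeOf k f ≤ N) :
    ∀ u ∈ f.support, ∀ k, u k ≤ N := fun u hu k => (monomial_le_degreeOf k hu).trans (h k)

lemma deg_pow {f : MvPolynomial (Fin n) R} {N : ℕ} (h : ∀ k, degreeOf k f ≤ N) (a : ℕ) :
    ∀ k, degreeOf k (f ^ a) ≤ N * a := by
  intro k
  calc degreeOf k (f ^ a) ≤ a * degreeOf k f := degreeOf_pow_le k f a
    _ ≤ a * N := Nat.mul_le_mul_left a (h k)
    _ = N * a := mul_comm _ _

lemma Hm_pow (M : ℕ) (f : MvPolynomial (Fin n) R) (hf : ∀ k, degreeOf k f ≤ M) (a : ℕ) :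
    Hm M 1 f ^ a = Hm M a (f ^ a) := by
  induction a with
  | zero => rw [pow_zero, pow_zero, Hm_one]
  | succ a ih =>
    rw [pow_succ, pow_succ, ih, Hm_mul M a 1 (f ^ a) f (deg_support (deg_pow hf a))
      (deg_support (by simpa using hf))]

/-- one variable expansion -/
lemma shift_pow (k : Fin n) {M : ℕ} (u : ℕ) (hu : u ≤ M) :
    ∑ e : Fin (M + 1), C (if u ≤ (e : ℕ) then ((M - u).choose ((e : ℕ) - u) : R) else 0) *
      (X k.succ : PP n R) ^ (e : ℕ) = X k.succ ^ u * (1 + X k.succ) ^ (M - u) := by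
  have h : (1 + X k.succ : PP n R) ^ (M - u) = (X k.succ + 1) ^ (M - u) := by
    rw [add_comm (1 : PP n R)]
  rw [h, add_pow, Finset.mul_sum, ← Finset.sum_range (fun e => C (if u ≤ e then
    ((M - u).choose (e - u) : R) else 0) * (X k.succ : PP n R) ^ e)]
  have e1 : M + 1 = u + (M - u + 1) := by omega
  rw [e1, Finset.sum_range_add]
  rw [Finset.sum_eq_zero, zero_add]
  · apply Finset.sum_congr rfl
    intro e _
    rw [if_pos (Nat.le_add_right _ _), Nat.add_sub_cancel_left, map_natCast, one_pow, pow_add]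
    ring
  · intro e he
    rw [Finset.mem_range] at he
    rw [if_neg (by omega), map_zero, zero_mul]

/-- `f~` is the homogenization of `f` -/
lemma Fp_ftil {M : ℕ} (f : MvPolynomial (Fin n) R) (hf : ∀ k, degreeOf k f ≤ M) :
    Fp (fun β : Grid n M => ftil f β) = Hm M 1 f := by
  rw [Hm_apply]
  have h1 : (Fp (fun β : Grid n M => ftil f β) : PP n R) = ∑ u ∈ f.support, C (coeff u f) *
      Fp (fun β : Grid n M => ∏ k, (if u k ≤ (β k : ℕ) then
        (Nat.choose (M - u k) ((β k : ℕ) - u k) : R) else 0)) := by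
    unfold Fp ftil
    simp only [map_sum, Finset.mul_sum]
    rw [Finset.sum_comm]
    apply Finset.sum_congr rfl
    intro u _
    apply Finset.sum_congr rfl
    intro β _
    rw [C_mul_monomial]
  rw [h1]
  apply Finset.sum_congr rfl
  intro u hu
  congr 1
  have h2 := Fp_prod (n := n) (R := R) (fun (k : Fin n) (e : Fin (M + 1)) =>
    (if u k ≤ (e : ℕ) then (Nat.choose (M - u k) ((e : ℕ) - u k) : R) else 0))
  rw [h2]
  unfold Ep
  rw [pow_one]
  congr 1
  apply Finset.prod_congr rfl
  intro k _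
  rw [shift_pow k _ (deg_support hf u hu k), mul_one]

lemma omg_eq (M : ℕ) : omg n M R = Ep R 1 (fun _ => 1) (fun _ => M - 2) := by
  unfold omg Ep
  simp

end

section
variable {n M : ℕ} {K : Type} [Field K] [CharZero K]

lemma Ifun_omg (hM : 2 ≤ M) (a : ℕ) (g : MvPolynomial (Fin n) K)
    (hg : ∀ u ∈ g.support, ∀ k, u k ≤ M * a) :
    Ifun M (omg n M K * Hm M a g) = (a.factorial : K) * Mom g := by
  rw [Hm_apply, Finset.mul_sum, Ifun_sum]
  unfold Mom
  rw [Finset.mul_sum]
  apply Finset.sum_congr rfl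
  intro u hu
  have h1 : omg n M K * (C (coeff u g) * Ep K a u (fun k => M * a - u k)) =
      C (coeff u g) * Ep K (a + 1) (fun k => u k + 1) (fun k => M - 2 + (M * a - u k)) := by
    rw [omg_eq, mul_left_comm, Ep_mul' (l2 := a + 1) (u2 := fun k => u k + 1)
      (m2 := fun k => M - 2 + (M * a - u k)) (add_comm _ _) (fun k => add_comm _ _) (fun k => rfl)]
  rw [h1, Ifun_C_mul, IEp2 M (a + 1) _ _ (fun _ => 1)]
  · rw [Nat.add_sub_cancel]
    have h2 : ∀ k, bet (u k + 1) 1 = (((u k + 1 : ℕ) : ℚ))⁻¹ := fun k => bet_one (by omega)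
    simp only [h2]
    rw [map_mul, map_natCast, map_prod]
    have h3 : ∀ k, algebraMap ℚ K (((u k + 1 : ℕ) : ℚ))⁻¹ = ((u k + 1 : ℕ) : K)⁻¹ := by
      intro k
      rw [map_inv₀, map_natCast]
    simp only [h3]
    ring
  · intro k
    have := hg u hu k
    refine ⟨by omega, by omega, ?_⟩
    rw [mul_add, mul_one]
    omega

lemma Ifun_map {R S : Type} [CommRing R] [CommRing S] [Algebra ℚ R] [Algebra ℚ S] (φ : R →+* S)
    (x : PP n R) : Ifun M (map φ x) = φ (Ifun M x) := by
  induction x using MvPolynomial.induction_on' with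
  | monomial s b =>
    rw [map_monomial, Ifun_monomial, Ifun_monomial, map_mul]
    congr 1
    exact (RingHom.map_rat_algebraMap φ _).symm
  | add x y hx hy => rw [map_add, Ifun_add, Ifun_add, hx, hy, map_add]

lemma map_Fp {R S : Type} [CommRing R] [CommRing S] (φ : R →+* S) (c : Grid n M → R) :
    map φ (Fp c) = Fp (fun β => φ (c β)) := by
  unfold Fp
  rw [map_sum]
  apply Finset.sum_congr rfl
  intro β _
  rw [map_monomial]

lemma map_mon {R S : Type} [CommRing R] [CommRing S] (φ : R →+* S) (s : Expo n) :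
    map φ (mon s : PP n R) = mon s := by
  unfold mon
  rw [map_monomial, map_one]

lemma map_omg {R S : Type} [CommRing R] [CommRing S] (φ : R →+* S) :
    map φ (omg n M R) = omg n M S := by
  unfold omg
  simp

variable (f : MvPolynomial (Fin n) K)

lemma cf_Cfun_map {D : ℕ} (hD : 1 ≤ D) (y : PP n K) (a : ℕ) :
    cf (Cfun M D f (map (kL (qG n M) K) y)) 0 (a : ℤ) =
      HahnSeries.C (((a.factorial : K))⁻¹ * Ifun M (y * Fp (fun β : Grid n M => ftil f β) ^ a)) := by
  induction y using MvPolynomial.induction_on' with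
  | monomial s b =>
    rw [map_monomial, Cfun_monomial, cf_kL_mul]
    have h0 := cf_Cm_nat (M := M) f hD s a 0
    rw [Nat.cast_zero, mul_zero] at h0
    rw [h0, Cab_eq]
    unfold cab
    rw [pow_zero, pow_zero, Nat.factorial_zero, Nat.cast_one, mul_one, mul_one]
    have h1 : (mon s * ftC M f ^ a : PP n (CC (qG n M) K)) =
        map (HahnSeries.C : K →+* CC (qG n M) K) (mon s * Fp (fun β : Grid n M => ftil f β) ^ a) := by
      rw [map_mul, map_mon, map_pow, map_Fp]
      rfl
    rw [h1, Ifun_map]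
    have h2 : (monomial s b * Fp (fun β : Grid n M => ftil f β) ^ a : PP n K) =
        C b * (mon s * Fp (fun β : Grid n M => ftil f β) ^ a) := by
      rw [← mul_assoc, mon, C_mul_monomial, mul_one]
    rw [h2, Ifun_C_mul, ← map_mul, ← map_mul, one_div]
    congr 1
    ring
  | add x y hx hy =>
    rw [map_add, Cfun_add, cf_add, hx, hy, add_mul, Ifun_add, mul_add, map_add]

lemma cf_Cfun_neg {D : ℕ} (y : PP n K) (m a : ℤ) (h : m < 0 ∨ a < 0) :
    cf (Cfun M D f (map (kL (qG n M) K) y)) m a = 0 := by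
  induction y using MvPolynomial.induction_on' with
  | monomial s b =>
    rw [map_monomial, Cfun_monomial, cf_kL_mul]
    rcases h with h | h
    · rw [cf_Cm_neg_m f D s a h, mul_zero]
    · rw [cf_Cm_neg_a f D s m h, mul_zero]
  | add x y hx hy =>
    rw [map_add, Cfun_add, cf_add, hx, hy, add_zero]

lemma Mom_one : Mom (1 : MvPolynomial (Fin n) K) = 1 := by
  classical
  unfold Mom
  have : (1 : MvPolynomial (Fin n) K) = monomial 0 1 := rfl
  rw [this, support_monomial, if_neg one_ne_zero, Finset.sum_singleton, coeff_monomial, if_pos rfl]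
  simp

end

/-- CFN -/
theorem cfn : CfnStmt := by
  intro n M D K _ _ f hG
  have hn := hG.hn
  have hM := hG.hM
  have hD := hG.hD
  refine ⟨?_, ?_, ?_, ?_, ?_⟩
  · intro i σ hσ
    exact Cfun_Dop f hn (by omega) hD i σ hσ
  · intro x _
    exact Cfun_nab f _ (thLt_der _ _) (thLt_Cm f hD) x
  · intro x _
    exact Cfun_nab f _ (thLw_der _ _) (thLw_Cm f hD) x
  · intro s m hm
    apply HahnSeries.ext
    funext a
    exact cf_Cm_neg_m f D s a hm
  · intro hmom
    have ho : omg n M (LL (qG n M) K) = map (kL (qG n M) K) (omg n M K) := (map_omg _).symm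
    rw [ho]
    constructor
    · intro m hm
      apply HahnSeries.ext
      funext a
      exact cf_Cfun_neg f (omg n M K) m a (Or.inl hm)
    · apply HahnSeries.ext
      funext a
      show cf (Cfun M D f (map (kL (qG n M) K) (omg n M K))) 0 a = (1 : OO (qG n M) K).coeff a
      by_cases ha : a < 0
      · rw [cf_Cfun_neg f (omg n M K) 0 a (Or.inr ha)]
        show 0 = (1 : HahnSeries ℤ (CC (qG n M) K)).coeff a
        rw [HahnSeries.coeff_one, if_neg (by omega)]
      · push Not at ha
        obtain ⟨a', rfl⟩ := Int.eq_ofNat_of_zero_le ha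
        rw [cf_Cfun_map f hD, Fp_ftil f hG.deg, Hm_pow M f hG.deg,
          Ifun_omg hM a' (f ^ a') (deg_support (deg_pow hG.deg a')), ← mul_assoc,
          inv_mul_cancel₀ (by exact_mod_cast a'.factorial_ne_zero), one_mul]
        show _ = (1 : HahnSeries ℤ (CC (qG n M) K)).coeff (a' : ℤ)
        rw [HahnSeries.coeff_one]
        by_cases h0 : a' = 0
        · subst h0
          rw [if_pos (by simp), pow_zero, Mom_one, map_one]
        · rw [if_neg (by exact_mod_cast h0), hmom a' (by omega), map_zero]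

end Pool.Agent.Helper95_CM.H98
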