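import Pool.Agent.Helper98_CM.CFN2

set_option autoImplicit false
set_option linter.unusedSectionVars false

noncomputable section

namespace Pool.Agent.Helper95_CM.H98

open MvPolynomial

lemma ftil_eq_sx {n M : ℕ} {R : Type} [CommRing R] (f : MvPolynomial (Fin n) R) (β : Grid n M) :
    ftil f β = sx (fun u => AddMonoidHom.mulRight
      (∏ k, (if u k ≤ (β k : ℕ) then (Nat.choose (M - u k) ((β k : ℕ) - u k) : R) else 0))) f := rfl

lemma ftil_map {n M : ℕ} {R S : Type} [CommRing R] [CommRing S] (φ : R →+* S)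
    (f : MvPolynomial (Fin n) R) (β : Grid n M) : ftil (map φ f) β = φ (ftil f β) := by
  induction f using MvPolynomial.induction_on' with
  | monomial s b =>
    rw [map_monomial, ftil_eq_sx, ftil_eq_sx, sx_monomial, sx_monomial]
    simp only [AddMonoidHom.mulRight_apply]
    rw [map_mul, map_prod]
    congr 1
    apply Finset.prod_congr rfl
    intro k _
    split_ifs
    · rw [map_natCast]
    · rw [map_zero]
  | add x y hx hy =>
    have h1 : ∀ (A : Type) [CommRing A] (g h : MvPolynomial (Fin n) A),
        ftil (g + h) β = ftil g β + ftil h β := by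
      intro A _ g h
      simp only [ftil_eq_sx, map_add]
    rw [map_add, h1, h1, hx, hy, map_add]

lemma cf_mL {q : ℕ} {R S : Type} [CommRing R] [CommRing S] (φ : R →+* S) (x : LL q R) (m a : ℤ) :
    cf (mL q φ x) m a = mC q φ (cf x m a) := rfl

lemma mC_C {q : ℕ} {R S : Type} [CommRing R] [CommRing S] (φ : R →+* S) (r : R) :
    mC q φ (HahnSeries.C r) = HahnSeries.C (φ r) := by
  apply HahnSeries.ext
  funext g
  show φ ((HahnSeries.single (0 : Gam q) r : HahnSeries (Gam q) R).coeff g) =
    (HahnSeries.single (0 : Gam q) (φ r) : HahnSeries (Gam q) S).coeff g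
  rw [HahnSeries.coeff_single, HahnSeries.coeff_single]
  split_ifs
  · rfl
  · rw [map_zero]

lemma mC_vC {q : ℕ} {R S : Type} [CommRing R] [CommRing S] (φ : R →+* S) (i : Fin q) :
    mC q φ (vC q R i) = vC q S i := by
  apply HahnSeries.ext
  funext g
  show φ ((vC q R i).coeff g) = (vC q S i).coeff g
  unfold vC
  rw [HahnSeries.coeff_single, HahnSeries.coeff_single]
  split_ifs
  · rw [map_one]
  · rw [map_zero]

lemma mC_Cab {n M : ℕ} {K K' : Type} [Field K] [CharZero K] [Field K'] [CharZero K']
    (j : K →+* K') (f : MvPolynomial (Fin n) K) (a b : ℕ) (s : Expo n) :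
    mC (qG n M) j (Cab M f a b s) = Cab M (map j f) a b s := by
  rw [Cab_eq, Cab_eq, map_mul, ← Ifun_map]
  congr 1
  · unfold cab
    rw [mC_C]
    congr 1
    simp
  · rw [map_mul, map_mul, map_mon, map_pow, map_pow]
    congr 3
    · congr 1
      unfold ftC
      rw [map_Fp]
      congr 1
      funext β
      rw [mC_C, ftil_map]
    · unfold GC
      rw [map_Fp]
      congr 1
      funext β
      rw [mC_vC]

/-- CMN -/
theorem cmn : CmnStmt := by
  intro n M D K K' _ _ _ _ j f s
  apply cf_ext
  intro m a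
  rw [cf_mL, cf_Cm, cf_Cm]
  split_ifs
  · rw [map_zero]
  · rw [map_zero]
  · rw [mC_Cab]
  · rw [map_zero]

end Pool.Agent.Helper95_CM.H98
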