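import Pool.Agent.Helper98_CM.CMN

set_option autoImplicit false
set_option linter.unusedSectionVars false

noncomputable section

namespace Pool.Agent.Helper95_CM.H98

open MvPolynomial

section
variable {n : ℕ} {R : Type} [CommRing R]

lemma supp_mul {P Q W : Expo n → Prop} {x y : PP n R} (hx : Supp P x) (hy : Supp Q y)
    (h : ∀ s t, P s → Q t → W (s + t)) : Supp W (x * y) := by
  classical
  intro s hs
  rw [coeff_mul] at hs
  obtain ⟨p, hp, hne⟩ := Finset.exists_ne_zero_of_sum_ne_zero hs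
  rw [Finset.HasAntidiagonal.mem_antidiagonal] at hp
  rw [← hp]
  exact h _ _ (hx p.1 (left_ne_zero_of_mul hne)) (hy p.2 (right_ne_zero_of_mul hne))

lemma hasLev_mul {a b : ℕ} {x y : PP n R} (hx : HasLev a x) (hy : HasLev b y) :
    HasLev (a + b) (x * y) :=
  supp_mul hx hy (fun s t h1 h2 => by rw [Finsupp.add_apply, h1, h2])

lemma hasLev_one : HasLev 0 (1 : PP n R) := by
  classical
  intro s hs
  rw [coeff_one] at hs
  split_ifs at hs with h
  · rw [← h]; rfl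
  · exact absurd rfl hs

lemma hasLev_pow {a : ℕ} {x : PP n R} (hx : HasLev a x) (N : ℕ) : HasLev (N * a) (x ^ N) := by
  induction N with
  | zero => rw [pow_zero, zero_mul]; exact hasLev_one
  | succ N ih => rw [pow_succ, Nat.succ_mul]; exact hasLev_mul ih hx

lemma hasLev_mon (s : Expo n) : HasLev (s 0) (mon s : PP n R) := by
  intro s' hs'
  unfold mon at hs'
  rw [coeff_monomial] at hs'
  split_ifs at hs' with h1
  · rw [← h1]
  · exact absurd rfl hs'

lemma hasLev_Fp {M : ℕ} (c : Grid n M → R) : HasLev 1 (Fp c) := by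
  classical
  intro s hs
  unfold Fp at hs
  rw [coeff_sum] at hs
  obtain ⟨β, _, hne⟩ := Finset.exists_ne_zero_of_sum_ne_zero hs
  rw [coeff_monomial] at hne
  split_ifs at hne with h
  · rw [← h]; rfl
  · exact absurd rfl hne

end

section
variable {p : ℕ} [Fact p.Prime]

lemma hp0 : (0 : ℝ) < p := by exact_mod_cast (Fact.out : p.Prime).pos
lemma hp1 : (1 : ℝ) ≤ p := by exact_mod_cast (Fact.out : p.Prime).one_lt.le

lemma norm_nat {N : ℕ} (hN : N ≠ 0) : ‖(N : ℚ_[p])‖ = ((p : ℝ) ^ (padicValNat p N))⁻¹ := by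
  have h : (N : ℚ_[p]) ≠ 0 := by exact_mod_cast hN
  rw [Padic.norm_eq_zpow_neg_valuation h, Padic.valuation_natCast, zpow_neg, zpow_natCast]

lemma inv_norm_nat {N : ℕ} (hN : N ≠ 0) : ‖(N : ℚ_[p])‖⁻¹ = (p : ℝ) ^ (padicValNat p N) := by
  rw [norm_nat hN, inv_inv]

lemma bet_eq {u v : ℕ} (hu : 1 ≤ u) (hv : 1 ≤ v) :
    bet u v = ((u : ℚ) * ((u + v - 1).choose u : ℚ))⁻¹ := by
  unfold bet
  have h1 : (u + v - 1).choose u * u.factorial * (v - 1).factorial = (u + v - 1).factorial := by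
    have := Nat.choose_mul_factorial_mul_factorial (n := u + v - 1) (k := u) (by omega)
    rw [show u + v - 1 - u = v - 1 by omega] at this
    exact this
  rw [← h1]
  obtain ⟨a, rfl⟩ := Nat.exists_eq_add_of_le' hu
  have e1 : a + 1 - 1 = a := by omega
  rw [e1, Nat.factorial_succ]
  have h2 : ((a.factorial : ℕ) : ℚ) ≠ 0 := by exact_mod_cast a.factorial_ne_zero
  have h3 : (((v - 1).factorial : ℕ) : ℚ) ≠ 0 := by exact_mod_cast (v - 1).factorial_ne_zero
  have h4 : (((a + 1 + v - 1).choose (a + 1) : ℕ) : ℚ) ≠ 0 := by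
    exact_mod_cast (Nat.choose_pos (by omega)).ne'
  push_cast
  have h5 : ((a : ℚ) + 1) ≠ 0 := by positivity
  field_simp

lemma norm_bet {u v : ℕ} (hu : 1 ≤ u) (hv : 1 ≤ v) :
    ‖((bet u v : ℚ) : ℚ_[p])‖ ≤ (p : ℝ) ^ (2 * Nat.log p (u + v)) := by
  have hc : (u + v - 1).choose u ≠ 0 := (Nat.choose_pos (by omega)).ne'
  have h1 : ((bet u v : ℚ) : ℚ_[p]) = ((u : ℚ_[p]) * ((u + v - 1).choose u : ℚ_[p]))⁻¹ := by
    rw [bet_eq hu hv]
    push_cast
    rfl
  rw [h1, norm_inv, norm_mul, mul_inv, inv_norm_nat (by omega), inv_norm_nat hc, ← pow_add]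
  apply pow_le_pow_right₀ hp1
  have a1 : padicValNat p u ≤ Nat.log p (u + v) :=
    (padicValNat_le_nat_log u).trans (Nat.log_mono_right (by omega))
  have a2 : padicValNat p ((u + v - 1).choose u) ≤ Nat.log p (u + v) := by
    rw [← Nat.factorization_def _ (Fact.out : p.Prime)]
    exact Nat.factorization_choose_le_log.trans (Nat.log_mono_right (by omega))
  omega

/-- bound for `I` on monomials -/
lemma norm_Iq {n M : ℕ} (s : Expo n) (hs : InCone M true s) :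
    ‖((Iq M s : ℚ) : ℚ_[p])‖ ≤ ‖(((s 0 - 1).factorial : ℕ) : ℚ_[p])‖ *
      (p : ℝ) ^ (2 * n * Nat.log p (M * s 0)) := by
  have h0 : Iq M s = ((s 0 - 1).factorial : ℚ) *
      ∏ k : Fin n, bet (s k.succ) (M * s 0 - s k.succ) := by
    have := Iq_mkE M (s 0) (fun k => s k.succ) (fun k => hs k)
    rwa [mkE_eta] at this
  have h00 : ((Iq M s : ℚ) : ℚ_[p]) = (((s 0 - 1).factorial : ℕ) : ℚ_[p]) *
      ∏ k : Fin n, ((bet (s k.succ) (M * s 0 - s k.succ) : ℚ) : ℚ_[p]) := by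
    rw [h0, Rat.cast_mul, Rat.cast_natCast, Rat.cast_prod]
  rw [h00, norm_mul, norm_prod]
  apply mul_le_mul_of_nonneg_left _ (norm_nonneg _)
  have h1 : ∀ k ∈ (Finset.univ : Finset (Fin n)), ‖((bet (s k.succ) (M * s 0 - s k.succ) : ℚ) : ℚ_[p])‖ ≤
      (p : ℝ) ^ (2 * Nat.log p (M * s 0)) := by
    intro k _
    have := hs k
    have h2 := norm_bet (p := p) (u := s k.succ) (v := M * s 0 - s k.succ) (by omega) (by omega)
    rw [show s k.succ + (M * s 0 - s k.succ) = M * s 0 by omega] at h2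
    exact h2
  have h3 := Finset.prod_le_prod
    (fun k _ => norm_nonneg ((bet (s k.succ) (M * s 0 - s k.succ) : ℚ) : ℚ_[p])) h1
  refine h3.trans ?_
  rw [Finset.prod_const, Finset.card_univ, Fintype.card_fin, ← pow_mul]
  apply le_of_eq
  congr 1
  ring

lemma norm_sum_le {ι : Type} (S : Finset ι) (g : ι → ℚ_[p]) {B : ℝ} (hB : 0 ≤ B)
    (h : ∀ i ∈ S, ‖g i‖ ≤ B) : ‖∑ i ∈ S, g i‖ ≤ B :=
  IsUltrametricDist.norm_sum_le_of_forall_le_of_nonneg hB h

lemma norm_fact_le (l a b : ℕ) : ‖(((l + a + b).factorial : ℕ) : ℚ_[p])‖ ≤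
    ‖((l.factorial : ℕ) : ℚ_[p])‖ * (‖((a.factorial : ℕ) : ℚ_[p])‖ * ‖((b.factorial : ℕ) : ℚ_[p])‖) := by
  have h1 : l.factorial * a.factorial * b.factorial ∣ (l + a + b).factorial :=
    (Nat.mul_dvd_mul_right (Nat.factorial_mul_factorial_dvd_factorial_add l a) _).trans
      (Nat.factorial_mul_factorial_dvd_factorial_add (l + a) b)
  obtain ⟨c, hc⟩ := h1
  rw [hc]
  push_cast
  rw [norm_mul, norm_mul, norm_mul]
  have h2 : ‖(c : ℚ_[p])‖ ≤ 1 := by
    have := Padic.norm_int_le_one (p := p) (c : ℤ)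
    simpa using this
  calc _ ≤ ‖((l.factorial : ℕ) : ℚ_[p])‖ * ‖((a.factorial : ℕ) : ℚ_[p])‖ *
        ‖((b.factorial : ℕ) : ℚ_[p])‖ * 1 := by
        apply mul_le_mul_of_nonneg_left h2
        positivity
    _ = _ := by ring

end

section
variable {n M p : ℕ} [Fact p.Prime]

/-- integral version of the argument of `Cab` -/
def Pab (M : ℕ) (f' : MvPolynomial (Fin n) ℤ_[p]) (a b : ℕ) (s : Expo n) :
    PP n (CC (qG n M) ℤ_[p]) :=
  mon s * Fp (fun β : Grid n M => (HahnSeries.C (ftil f' β) : CC (qG n M) ℤ_[p])) ^ a *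
    Fp (fun β : Grid n M => vC (qG n M) ℤ_[p] (gi β)) ^ b

lemma Pab_lev (f' : MvPolynomial (Fin n) ℤ_[p]) (a b : ℕ) (s : Expo n) :
    HasLev (s 0 + a + b) (Pab M f' a b s) := by
  have h := hasLev_mul (hasLev_mul (hasLev_mon (R := CC (qG n M) ℤ_[p]) s)
    (hasLev_pow (hasLev_Fp (fun β : Grid n M => (HahnSeries.C (ftil f' β) : CC (qG n M) ℤ_[p]))) a))
    (hasLev_pow (hasLev_Fp (fun β : Grid n M => vC (qG n M) ℤ_[p] (gi β))) b)
  rw [mul_one, mul_one] at h
  exact h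

lemma Pab_cone (f' : MvPolynomial (Fin n) ℤ_[p]) (a b : ℕ) (s : Expo n) (hs : InCone M true s) :
    IsCone M true (Pab M f' a b s) :=
  isCone_mul (isCone_mul (isCone_mon hs) (isCone_pow (isCone_Fp _) a)) (isCone_pow (isCone_Fp _) b)

lemma Pab_map (f' : MvPolynomial (Fin n) ℤ_[p]) (a b : ℕ) (s : Expo n) :
    (mon s * ftC M (map (zq p) f') ^ a * GC n M ℚ_[p] ^ b : PP n (CC (qG n M) ℚ_[p])) =
      map (mC (qG n M) (zq p)) (Pab M f' a b s) := by
  unfold Pab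
  rw [map_mul, map_mul, map_mon, map_pow, map_pow]
  congr 3
  · congr 1
    unfold ftC
    rw [map_Fp]
    congr 1
    funext β
    rw [mC_C, ftil_map]
  · unfold GC
    rw [map_Fp]
    congr 1
    funext β
    rw [mC_vC]

lemma norm_zq_le (z : ℤ_[p]) : ‖zq p z‖ ≤ 1 := z.2

lemma coeff_cab_mul (q a b : ℕ) (x : CC q ℚ_[p]) (g : Gam q) :
    (cab q ℚ_[p] a b * x).coeff g =
      ((-1) ^ b / ((a.factorial : ℚ_[p]) * (b.factorial : ℚ_[p]))) * x.coeff g := by
  unfold cab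
  rw [HahnSeries.C_mul_eq_smul, HahnSeries.coeff_smul, smul_eq_mul]

lemma algQ_CC (q : ℕ) (r : ℚ) :
    (algebraMap ℚ (CC q ℚ_[p])) r = HahnSeries.C (r : ℚ_[p]) := by
  have h := RingHom.map_rat_algebraMap (HahnSeries.C : ℚ_[p] →+* CC q ℚ_[p]) r
  rw [← h]
  rfl

lemma norm_Cab (f' : MvPolynomial (Fin n) ℤ_[p]) (a b : ℕ) (s : Expo n) (hs : InCone M true s)
    (hn : 1 ≤ n) (g : Gam (qG n M)) :
    ‖(Cab M (map (zq p) f') a b s).coeff g‖ ≤ ‖(((s 0 - 1).factorial : ℕ) : ℚ_[p])‖ *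
      (p : ℝ) ^ (2 * n * Nat.log p (M * (s 0 + a + b))) := by
  have hs0 : 0 < s 0 := by
    by_contra h0
    have := hs ⟨0, hn⟩
    have h1 : s 0 = 0 := by omega
    rw [h1] at this
    omega
  rw [Cab_eq, coeff_cab_mul, Pab_map, norm_mul]
  have hfa : (0 : ℝ) < ‖((a.factorial : ℕ) : ℚ_[p])‖ := by
    rw [norm_pos_iff]; exact_mod_cast a.factorial_ne_zero
  have hfb : (0 : ℝ) < ‖((b.factorial : ℕ) : ℚ_[p])‖ := by
    rw [norm_pos_iff]; exact_mod_cast b.factorial_ne_zero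
  have h1 : ‖(-1 : ℚ_[p]) ^ b / (((a.factorial : ℕ) : ℚ_[p]) * ((b.factorial : ℕ) : ℚ_[p]))‖ =
      (‖((a.factorial : ℕ) : ℚ_[p])‖ * ‖((b.factorial : ℕ) : ℚ_[p])‖)⁻¹ := by
    rw [norm_div, norm_mul, norm_pow, norm_neg, norm_one, one_pow, one_div]
  rw [h1]
  have h2 : ‖(Ifun M (map (mC (qG n M) (zq p)) (Pab M f' a b s))).coeff g‖ ≤
      ‖(((s 0 - 1 + a + b).factorial : ℕ) : ℚ_[p])‖ *
      (p : ℝ) ^ (2 * n * Nat.log p (M * (s 0 + a + b))) := by
    have e1 : (Ifun M (map (mC (qG n M) (zq p)) (Pab M f' a b s))).coeff g =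
        ∑ s' ∈ (Pab M f' a b s).support, zq p ((coeff s' (Pab M f' a b s)).coeff g) *
          ((Iq M s' : ℚ) : ℚ_[p]) := by
      have e2 : Ifun M (map (mC (qG n M) (zq p)) (Pab M f' a b s)) =
          ∑ s' ∈ (Pab M f' a b s).support, mC (qG n M) (zq p) (coeff s' (Pab M f' a b s)) *
            algebraMap ℚ (CC (qG n M) ℚ_[p]) (Iq M s') := by
        rw [Ifun_eq_sx, sx_of_subset _ _ (Pab M f' a b s).support (support_map_subset _ _)]
        apply Finset.sum_congr rfl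
        intro s' _
        rw [coeff_map]
        rfl
      rw [e2, HahnSeries.coeff_sum]
      apply Finset.sum_congr rfl
      intro s' _
      rw [algQ_CC, mul_comm, HahnSeries.C_mul_eq_smul, HahnSeries.coeff_smul, smul_eq_mul, mul_comm]
      rfl
    rw [e1]
    apply norm_sum_le
    · positivity
    intro s' hs'
    have hc : InCone M true s' := Pab_cone f' a b s hs s' (mem_support_iff.mp hs')
    have hl : s' 0 = s 0 + a + b := Pab_lev f' a b s s' (mem_support_iff.mp hs')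
    rw [norm_mul]
    calc ‖zq p ((coeff s' (Pab M f' a b s)).coeff g)‖ * ‖((Iq M s' : ℚ) : ℚ_[p])‖
        ≤ 1 * ‖((Iq M s' : ℚ) : ℚ_[p])‖ :=
          mul_le_mul_of_nonneg_right (norm_zq_le _) (norm_nonneg _)
      _ = ‖((Iq M s' : ℚ) : ℚ_[p])‖ := one_mul _
      _ ≤ _ := by
          have := norm_Iq (p := p) s' hc
          rw [hl, show s 0 + a + b - 1 = s 0 - 1 + a + b by omega] at this
          exact this
  calc _ ≤ (‖((a.factorial : ℕ) : ℚ_[p])‖ * ‖((b.factorial : ℕ) : ℚ_[p])‖)⁻¹ *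
        (‖(((s 0 - 1 + a + b).factorial : ℕ) : ℚ_[p])‖ *
          (p : ℝ) ^ (2 * n * Nat.log p (M * (s 0 + a + b)))) :=
        mul_le_mul_of_nonneg_left h2 (by positivity)
    _ ≤ (‖((a.factorial : ℕ) : ℚ_[p])‖ * ‖((b.factorial : ℕ) : ℚ_[p])‖)⁻¹ *
        ((‖(((s 0 - 1).factorial : ℕ) : ℚ_[p])‖ * (‖((a.factorial : ℕ) : ℚ_[p])‖ *
          ‖((b.factorial : ℕ) : ℚ_[p])‖)) *
          (p : ℝ) ^ (2 * n * Nat.log p (M * (s 0 + a + b)))) := by
        apply mul_le_mul_of_nonneg_left _ (by positivity)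
        apply mul_le_mul_of_nonneg_right (norm_fact_le _ _ _)
        have := hp0 (p := p)
        positivity
    _ = _ := by
        field_simp

end

/-- EST -/
theorem est : EstStmt := by
  intro n M D p _ f' hn hM hD _ s hs m m' g
  have h0 : (((Cm M D (map (zq p) f') s).coeff (m : ℤ)).coeff (m' : ℤ)) =
      cf (Cm M D (map (zq p) f') s) (m : ℤ) (m' : ℤ) := rfl
  rw [h0]
  have hpos : (0 : ℝ) ≤ ‖(((s 0 - 1).factorial : ℕ) : ℚ_[p])‖ *
      (p : ℝ) ^ (2 * n * Nat.log p (M * (s 0 + m + m'))) := by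
    have := hp0 (p := p)
    positivity
  by_cases hd : D ∣ m
  · obtain ⟨b, rfl⟩ := hd
    have e1 : ((D * b : ℕ) : ℤ) = (D : ℤ) * (b : ℤ) := by push_cast; rfl
    rw [e1, cf_Cm_nat _ hD]
    refine (norm_Cab f' m' b s hs hn g).trans ?_
    apply mul_le_mul_of_nonneg_left _ (norm_nonneg _)
    apply pow_le_pow_right₀ hp1
    apply Nat.mul_le_mul_left
    apply Nat.log_mono_right
    apply Nat.mul_le_mul_left
    have : b ≤ D * b := Nat.le_mul_of_pos_left b hD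
    omega
  · rw [cf_Cm_nd _ D s _ (by exact_mod_cast hd)]
    show ‖(0 : ℚ_[p])‖ ≤ _
    rw [norm_zero]
    exact hpos

end Pool.Agent.Helper95_CM.H98
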