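import Pool.Agent.Helper98_CM.VALI
import Pool.Agent.Helper51_CM.Pso

set_option autoImplicit false
set_option linter.unusedSectionVars false

noncomputable section

namespace Pool.Agent.Helper95_CM.H98

open MvPolynomial

/-! ### products and predicates -/

section
variable {G : Type} [AddCommGroup G] [LinearOrder G] [IsOrderedAddMonoid G]

lemma mul_pred {R : Type} [CommRing R] (x y : HahnSeries G R) (g : G) (Q : R → Prop) (h0 : Q 0)
    (hadd : ∀ a b, Q a → Q b → Q (a + b)) (h : ∀ i j, i + j = g → Q (x.coeff i * y.coeff j)) :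
    Q ((x * y).coeff g) := by
  rw [HahnSeries.coeff_mul]
  apply Finset.sum_induction _ Q hadd h0
  intro a ha
  rw [Finset.mem_antidiagonal] at ha
  exact h _ _ ha.2.2

end

section
variable {q : ℕ} {R : Type} [CommRing R]

lemma ordGe_mul0 {x y : LaurentSeries R} (hx : OrdGe 0 x) (hy : OrdGe 0 y) : OrdGe 0 (x * y) := by
  intro m hm
  apply mul_pred (G := ℤ) x y m (fun z => z = 0) rfl (fun a b ha hb => by rw [ha, hb, add_zero])
  intro i j hij
  by_cases hi : i < 0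
  · rw [hx i hi, zero_mul]
  · rw [hy j (by omega), mul_zero]

/-- nonnegative exponents of `t` and `w` -/
def NN (x : LL q R) : Prop := OrdGe 0 x ∧ ∀ m, OrdGe 0 (x.coeff m)

lemma ordGe_zero' {R : Type} [CommRing R] (m : ℤ) : OrdGe m (0 : LaurentSeries R) := fun _ _ => rfl

lemma ordGe_add' {R : Type} [CommRing R] {m : ℤ} {x y : LaurentSeries R} (hx : OrdGe m x)
    (hy : OrdGe m y) : OrdGe m (x + y) := by
  intro i hi
  show x.coeff i + y.coeff i = 0
  rw [hx i hi, hy i hi, add_zero]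

lemma ordGe_neg' {R : Type} [CommRing R] {m : ℤ} {x : LaurentSeries R} (hx : OrdGe m x) :
    OrdGe m (-x) := by
  intro i hi
  show -x.coeff i = 0
  rw [hx i hi, neg_zero]

lemma ordGe_C {R : Type} [CommRing R] (r : R) : OrdGe 0 (HahnSeries.C r : LaurentSeries R) := by
  intro i hi
  show (HahnSeries.single (0 : ℤ) r).coeff i = 0
  rw [HahnSeries.coeff_single, if_neg (by omega)]

lemma coeff_C' {R : Type} [CommRing R] (r : R) (i : ℤ) :
    (HahnSeries.C r : LaurentSeries R).coeff i = if i = 0 then r else 0 := by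
  show (HahnSeries.single (0 : ℤ) r).coeff i = _
  rw [HahnSeries.coeff_single]
  split_ifs <;> rfl

lemma NN_C {y : OO q R} (hy : OrdGe 0 y) : NN (HahnSeries.C y : LL q R) := by
  refine ⟨ordGe_C y, fun m => ?_⟩
  rw [coeff_C']
  split_ifs
  · exact hy
  · exact ordGe_zero' 0

lemma NN_mul {x y : LL q R} (hx : NN x) (hy : NN y) : NN (x * y) := by
  refine ⟨ordGe_mul0 hx.1 hy.1, fun m => ?_⟩
  apply mul_pred (G := ℤ) x y m (fun z => OrdGe 0 z) (ordGe_zero' 0)
    (fun a b ha hb => ordGe_add' ha hb)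
  intro i j _
  exact ordGe_mul0 (hx.2 i) (hy.2 j)

lemma NN_add {x y : LL q R} (hx : NN x) (hy : NN y) : NN (x + y) :=
  ⟨ordGe_add' hx.1 hy.1, fun m => ordGe_add' (hx.2 m) (hy.2 m)⟩

lemma NN_neg {x : LL q R} (hx : NN x) : NN (-x) :=
  ⟨ordGe_neg' hx.1, fun m => ordGe_neg' (hx.2 m)⟩

lemma NN_kL (r : R) : NN (kL q R r) := NN_C (ordGe_C _)

lemma NN_one : NN (1 : LL q R) := by
  have := NN_kL (q := q) (1 : R)
  rwa [map_one] at this

lemma NN_zero : NN (0 : LL q R) := by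
  have := NN_kL (q := q) (0 : R)
  rwa [map_zero] at this

/-- as a subring -/
def NS (q : ℕ) (R : Type) [CommRing R] : Subring (LL q R) where
  carrier := {x | NN x}
  mul_mem' := NN_mul
  one_mem' := NN_one
  add_mem' := NN_add
  zero_mem' := NN_zero
  neg_mem' := NN_neg

lemma NN_wL : NN (wL q R) := by
  apply NN_C
  intro i hi
  show (HahnSeries.single (1 : ℤ) (1 : CC q R)).coeff i = 0
  rw [HahnSeries.coeff_single, if_neg (by omega)]

lemma NN_vL (i : Fin q) : NN (vL q R i) := NN_C (ordGe_C _)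

lemma NN_tL : NN (tL q R) := by
  have h : ∀ i : ℤ, (tL q R).coeff i = if i = 1 then 1 else 0 := by
    intro i
    show (HahnSeries.single (1 : ℤ) (1 : OO q R)).coeff i = _
    rw [HahnSeries.coeff_single]
    split_ifs <;> rfl
  constructor
  · intro i hi
    rw [h, if_neg (by omega)]
  · intro i
    rw [h]
    split_ifs
    · have := ordGe_C (R := CC q R) 1
      rwa [map_one] at this
    · exact ordGe_zero' 0

lemma NN_cgen {n M : ℕ} {R : Type} [CommRing R] (D : ℕ) (f : MvPolynomial (Fin n) R)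
    (β : Grid n M) : NN (cgen D f β) := by
  have h1 : ((bin β : ℕ) : LL (qG n M) R) ∈ NS (qG n M) R := natCast_mem _ _
  have h2 : wL (qG n M) R * kL (qG n M) R (ftil f β) ∈ NS (qG n M) R :=
    (NS (qG n M) R).mul_mem NN_wL (NN_kL _)
  have h3 : tL (qG n M) R ^ D * vL (qG n M) R (gi β) ∈ NS (qG n M) R :=
    (NS (qG n M) R).mul_mem ((NS (qG n M) R).pow_mem NN_tL D) (NN_vL _)
  exact (NS (qG n M) R).add_mem ((NS (qG n M) R).sub_mem h1 h2) h3

end

section
variable {q p : ℕ}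

lemma ordGe_phT {R : Type} [CommRing R] (hp : 0 < p) (φ : R →+* R) {x : LaurentSeries R}
    (hx : OrdGe 0 x) : OrdGe 0 (phT p φ x) := by
  intro m hm
  by_cases hd : (p : ℤ) ∣ m
  · obtain ⟨c, rfl⟩ := hd
    rw [phT_coeff hp, hx c, map_zero]
    by_contra h
    have : (0 : ℤ) ≤ (p : ℤ) * c := mul_nonneg (by positivity) (by omega)
    omega
  · exact phT_coeff_ne hp φ x m hd

lemma NN_phL {R : Type} [CommRing R] (hp : 0 < p) {x : LL q R} (hx : NN x) :
    NN (phL q R p x) := by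
  refine ⟨ordGe_phT hp _ hx.1, fun m => ?_⟩
  by_cases hd : (p : ℤ) ∣ m
  · obtain ⟨c, rfl⟩ := hd
    rw [phT_coeff hp]
    exact ordGe_phT hp _ (hx.2 c)
  · rw [phT_coeff_ne hp _ x m hd]
    exact ordGe_zero' 0

variable [Fact p.Prime]

lemma NN_sat {x : LL q ℤ_[p]} (hx : NN ((p : LL q ℤ_[p]) * x)) : NN x := by
  have hpz : (p : ℤ_[p]) ≠ 0 := by exact_mod_cast (Fact.out : p.Prime).ne_zero
  have hcf : ∀ m a g, (cf ((p : LL q ℤ_[p]) * x) m a).coeff g = (p : ℤ_[p]) * (cf x m a).coeff g := by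
    intro m a g
    rw [cf_nat_mul]
    have : ((p : ℕ) : CC q ℤ_[p]) = HahnSeries.C ((p : ℕ) : ℤ_[p]) := by rw [map_natCast]
    rw [this, HahnSeries.C_mul_eq_smul, HahnSeries.coeff_smul, smul_eq_mul]
  have key : ∀ m a, (m < 0 ∨ a < 0) → cf x m a = 0 := by
    intro m a h
    apply HahnSeries.ext
    funext g
    have h1 : cf ((p : LL q ℤ_[p]) * x) m a = 0 := by
      rcases h with h | h
      · unfold cf
        rw [hx.1 m h]
        rfl
      · exact hx.2 m a h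
    have h2 := hcf m a g
    rw [h1] at h2
    have h3 : (0 : ℤ_[p]) = (p : ℤ_[p]) * (cf x m a).coeff g := h2
    rcases mul_eq_zero.mp h3.symm with h4 | h4
    · exact absurd h4 hpz
    · exact h4
  constructor
  · intro m hm
    apply HahnSeries.ext
    funext a
    exact key m a (Or.inl hm)
  · intro m a ha
    exact key m a (Or.inr ha)

/-! ### bounded series -/

/-- all coefficients have norm `≤ B` -/
def QC (B : ℝ) (y : CC q ℚ_[p]) : Prop := ∀ g, ‖y.coeff g‖ ≤ B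
def QO (Y : ℤ) (B : ℝ) (y : OO q ℚ_[p]) : Prop := ∀ a ≤ Y, QC B (y.coeff a)
def QL (X Y : ℤ) (B : ℝ) (y : LL q ℚ_[p]) : Prop := ∀ m ≤ X, QO Y B (y.coeff m)

lemma norm_add_le' {B : ℝ} {a b : ℚ_[p]} (ha : ‖a‖ ≤ B) (hb : ‖b‖ ≤ B) : ‖a + b‖ ≤ B :=
  (IsUltrametricDist.norm_add_le_max a b).trans (max_le ha hb)

lemma QC_zero {B : ℝ} (hB : 0 ≤ B) : QC B (0 : CC q ℚ_[p]) := by
  intro g
  show ‖(0 : ℚ_[p])‖ ≤ B
  rw [norm_zero]
  exact hB

lemma QC_add {B : ℝ} {x y : CC q ℚ_[p]} (hx : QC B x) (hy : QC B y) : QC B (x + y) :=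
  fun g => norm_add_le' (hx g) (hy g)

lemma QO_zero {Y : ℤ} {B : ℝ} (hB : 0 ≤ B) : QO Y B (0 : OO q ℚ_[p]) := fun _ _ => QC_zero hB

lemma QO_add {Y : ℤ} {B : ℝ} {x y : OO q ℚ_[p]} (hx : QO Y B x) (hy : QO Y B y) :
    QO Y B (x + y) := fun a ha => QC_add (hx a ha) (hy a ha)

lemma QL_zero {X Y : ℤ} {B : ℝ} (hB : 0 ≤ B) : QL X Y B (0 : LL q ℚ_[p]) := fun _ _ => QO_zero hB

lemma QL_add {X Y : ℤ} {B : ℝ} {x y : LL q ℚ_[p]} (hx : QL X Y B x) (hy : QL X Y B y) :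
    QL X Y B (x + y) := fun a ha => QO_add (hx a ha) (hy a ha)

lemma QL_sum {X Y : ℤ} {B : ℝ} (hB : 0 ≤ B) {ι : Type} (S : Finset ι) (f : ι → LL q ℚ_[p])
    (h : ∀ i ∈ S, QL X Y B (f i)) : QL X Y B (∑ i ∈ S, f i) := by
  apply Finset.sum_induction _ (QL X Y B) (fun _ _ => QL_add) (QL_zero hB) h

lemma QC_mul {B : ℝ} (hB : 0 ≤ B) (x : CC q ℤ_[p]) {y : CC q ℚ_[p]} (hy : QC B y) :
    QC B (mC q (zq p) x * y) := by
  intro g
  apply mul_pred (G := Gam q) (mC q (zq p) x) y g (fun z => ‖z‖ ≤ B)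
    (by rw [norm_zero]; exact hB) (fun a b => norm_add_le')
  intro i j _
  rw [norm_mul]
  have h1 : ‖(mC q (zq p) x).coeff i‖ ≤ 1 := norm_zq_le _
  calc _ ≤ 1 * ‖y.coeff j‖ := mul_le_mul_of_nonneg_right h1 (norm_nonneg _)
    _ = ‖y.coeff j‖ := one_mul _
    _ ≤ B := hy j

lemma QO_mul {Y : ℤ} {B : ℝ} (hB : 0 ≤ B) {x : OO q ℤ_[p]} (hx : OrdGe 0 x) {y : OO q ℚ_[p]}
    (hy : QO Y B y) : QO Y B (mO q (zq p) x * y) := by
  intro a ha
  apply mul_pred (G := ℤ) (mO q (zq p) x) y a (QC B) (QC_zero hB) (fun _ _ => QC_add)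
  intro i j hij
  by_cases hi : i < 0
  · have h1 : (mO q (zq p) x).coeff i = 0 := by
      show mC q (zq p) (x.coeff i) = 0
      rw [hx i hi, map_zero]
    rw [h1, zero_mul]
    exact QC_zero hB
  · exact QC_mul hB (x.coeff i) (hy j (by omega))

lemma QL_mul {X Y : ℤ} {B : ℝ} (hB : 0 ≤ B) {x : LL q ℤ_[p]} (hx : NN x) {y : LL q ℚ_[p]}
    (hy : QL X Y B y) : QL X Y B (mL q (zq p) x * y) := by
  intro a ha
  apply mul_pred (G := ℤ) (mL q (zq p) x) y a (QO Y B) (QO_zero hB) (fun _ _ => QO_add)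
  intro i j hij
  by_cases hi : i < 0
  · have h1 : (mL q (zq p) x).coeff i = 0 := by
      show mO q (zq p) (x.coeff i) = 0
      rw [hx.1 i hi, map_zero]
    rw [h1, zero_mul]
    exact QO_zero hB
  · exact QO_mul hB (hx.2 i) (hy j (by omega))

lemma QC_phC (hp : 0 < p) {B : ℝ} (hB : 0 ≤ B) {y : CC q ℚ_[p]} (hy : QC B y) :
    QC B (phC q ℚ_[p] p y) := by
  intro g
  by_cases h : ∃ g', p • g' = g
  · obtain ⟨g', rfl⟩ := h
    have h1 : (phC q ℚ_[p] p y).coeff (p • g') = y.coeff g' := hphi_coeff hp y g'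
    rw [h1]
    exact hy g'
  · push Not at h
    have h1 : (phC q ℚ_[p] p y).coeff g = 0 := hphi_coeff_ne hp y g h
    rw [h1, norm_zero]
    exact hB

/-- Frobenius: only the coefficients of exponent `0` in `t`, `≤ X` in `w` matter -/
lemma QL_phL {X : ℕ} (hX : X < p) {B : ℝ} (hB : 0 ≤ B) {y : LL q ℚ_[p]}
    (hy0 : ∀ m : ℤ, m < 0 → y.coeff m = 0)
    (hy : ∀ a : ℤ, a ≤ X → QC B ((y.coeff 0).coeff a)) :
    QL (X : ℤ) (X * p : ℤ) B (phL q ℚ_[p] p y) := by
  have hp : 0 < p := by omega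
  have hp' : (0 : ℤ) < p := by exact_mod_cast hp
  intro m hm a ha
  by_cases hd : (p : ℤ) ∣ m
  · obtain ⟨c, rfl⟩ := hd
    rw [phT_coeff hp]
    rcases lt_trichotomy c 0 with hc | hc | hc
    · rw [hy0 c hc, map_zero]
      exact QC_zero hB
    · subst hc
      by_cases hd2 : (p : ℤ) ∣ a
      · obtain ⟨b, rfl⟩ := hd2
        have h1 : (phO q ℚ_[p] p (y.coeff 0)).coeff ((p : ℤ) * b) =
            phC q ℚ_[p] p ((y.coeff 0).coeff b) := phT_coeff hp _ _ _
        rw [h1]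
        apply QC_phC hp hB
        apply hy
        have : (p : ℤ) * b ≤ p * X := by rw [mul_comm (p : ℤ) (X : ℤ)]; exact ha
        exact le_of_mul_le_mul_left this hp'
      · have h1 : (phO q ℚ_[p] p (y.coeff 0)).coeff a = 0 := phT_coeff_ne hp _ _ _ hd2
        rw [h1]
        exact QC_zero hB
    · exfalso
      have h1 : (p : ℤ) * 1 ≤ p * c := mul_le_mul_of_nonneg_left (by omega) hp'.le
      have h2 : (X : ℤ) < p := by exact_mod_cast hX
      omega
  · have h1 : (phL q ℚ_[p] p y).coeff m = 0 := phT_coeff_ne hp _ _ _ hd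
    rw [h1]
    exact QC_zero hB

end

/-! ### `Cph` -/

section
variable {n M p : ℕ} [Fact p.Prime]

lemma Cph_eq_sx (D : ℕ) (f : MvPolynomial (Fin n) ℚ_[p]) (x : PP n (LL (qG n M) ℤ_[p])) :
    Cph M D p f x = sx (fun s => (AddMonoidHom.mulRight (phL (qG n M) ℚ_[p] p (Cm M D f s))).comp
      (mL (qG n M) (zq p)).toAddMonoidHom) x := rfl

lemma Cph_add (D : ℕ) (f : MvPolynomial (Fin n) ℚ_[p]) (x y : PP n (LL (qG n M) ℤ_[p])) :
    Cph M D p f (x + y) = Cph M D p f x + Cph M D p f y := by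
  simp only [Cph_eq_sx, map_add]

lemma Cph_sub (D : ℕ) (f : MvPolynomial (Fin n) ℚ_[p]) (x y : PP n (LL (qG n M) ℤ_[p])) :
    Cph M D p f (x - y) = Cph M D p f x - Cph M D p f y := by
  simp only [Cph_eq_sx, map_sub]

lemma Cph_sum (D : ℕ) (f : MvPolynomial (Fin n) ℚ_[p]) {ι : Type} (S : Finset ι)
    (g : ι → PP n (LL (qG n M) ℤ_[p])) :
    Cph M D p f (∑ i ∈ S, g i) = ∑ i ∈ S, Cph M D p f (g i) := by
  simp only [Cph_eq_sx, map_sum]

lemma Cph_C_mul (D : ℕ) (f : MvPolynomial (Fin n) ℚ_[p]) (a : LL (qG n M) ℤ_[p])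
    (x : PP n (LL (qG n M) ℤ_[p])) :
    Cph M D p f (C a * x) = mL (qG n M) (zq p) a * Cph M D p f x := by
  induction x using MvPolynomial.induction_on' with
  | monomial s b =>
    rw [C_mul_monomial, Cph_eq_sx, Cph_eq_sx, sx_monomial, sx_monomial]
    simp only [AddMonoidHom.coe_comp, Function.comp_apply, AddMonoidHom.mulRight_apply,
      RingHom.toAddMonoidHom_eq_coe, AddMonoidHom.coe_coe, map_mul]
    ring
  | add x y hx hy => rw [mul_add, Cph_add, Cph_add, hx, hy, mul_add]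

/-- bound for `C^φ` of an integral element of level `j + 1` -/
lemma QL_Cph (hn : 1 ≤ n) (hM : 2 ≤ M) {D : ℕ} (hD : 1 ≤ D) (f' : MvPolynomial (Fin n) ℤ_[p])
    (hf : ∀ k, degreeOf k f' ≤ M) {X : ℕ} (hX : X < p) (j : ℕ) (x : PP n (LL (qG n M) ℤ_[p]))
    (hx : ∀ s, NN (coeff s x)) (hxc : IsCone M true x) (hxl : HasLev (j + 1) x) :
    QL (X : ℤ) (X * p : ℤ) (‖((j.factorial : ℕ) : ℚ_[p])‖ *
      (p : ℝ) ^ (2 * n * Nat.log p (M * (j + 1 + X)))) (Cph M D p (map (zq p) f') x) := by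
  have hB : (0 : ℝ) ≤ ‖((j.factorial : ℕ) : ℚ_[p])‖ *
      (p : ℝ) ^ (2 * n * Nat.log p (M * (j + 1 + X))) := by
    have := hp0 (p := p)
    positivity
  unfold Cph
  apply QL_sum hB
  intro s hs
  apply QL_mul hB (hx s)
  have hsc : InCone M true s := hxc s (mem_support_iff.mp hs)
  have hsl : s 0 = j + 1 := hxl s (mem_support_iff.mp hs)
  apply QL_phL hX hB
  · intro m hm
    apply HahnSeries.ext
    funext a
    exact cf_Cm_neg_m _ D s a hm
  · intro a ha g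
    by_cases ha0 : a < 0
    · have h1 : ((Cm M D (map (zq p) f') s).coeff 0).coeff a = 0 := cf_Cm_neg_a _ D s 0 ha0
      rw [h1]
      show ‖(0 : ℚ_[p])‖ ≤ _
      rw [norm_zero]
      exact hB
    · push Not at ha0
      obtain ⟨a', rfl⟩ := Int.eq_ofNat_of_zero_le ha0
      have h2 := est n M D p f' hn hM hD hf s hsc 0 a' g
      rw [Nat.cast_zero, hsl, Nat.add_sub_cancel, add_zero] at h2
      refine h2.trans ?_
      apply mul_le_mul_of_nonneg_left _ (norm_nonneg _)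
      apply pow_le_pow_right₀ hp1
      apply Nat.mul_le_mul_left
      apply Nat.log_mono_right
      apply Nat.mul_le_mul_left
      have : a' ≤ X := by exact_mod_cast ha
      omega

lemma QL_kL_mul {q : ℕ} {X Y : ℤ} {B : ℝ} (a : ℤ_[p]) {y : LL q ℚ_[p]} (hy : QL X Y B y) :
    QL X Y (‖zq p a‖ * B) (mL q (zq p) (kL q ℤ_[p] a) * y) := by
  have h1 : mL q (zq p) (kL q ℤ_[p] a) = kL q ℚ_[p] (zq p a) := by
    apply cf_ext
    intro m b
    rw [cf_mL]
    have h2 : kL q ℤ_[p] a = kL q ℤ_[p] a * 1 := (mul_one _).symm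
    have h3 : kL q ℚ_[p] (zq p a) = kL q ℚ_[p] (zq p a) * 1 := (mul_one _).symm
    rw [h2, h3, cf_kL_mul, cf_kL_mul, map_mul, mC_C]
    congr 1
    have h4 : (1 : LL q ℚ_[p]) = mL q (zq p) 1 := by rw [map_one]
    rw [h4, cf_mL]
  rw [h1]
  intro m hm b hb g
  have h5 : (((kL q ℚ_[p] (zq p a) * y).coeff m).coeff b) = HahnSeries.C (zq p a) *
      ((y.coeff m).coeff b) := cf_kL_mul (zq p a) y m b
  rw [h5, HahnSeries.C_mul_eq_smul, HahnSeries.coeff_smul, smul_eq_mul, norm_mul]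
  exact mul_le_mul_of_nonneg_left (hy m hm b hb g) (norm_nonneg _)

end

/-- the numerical estimate -/
lemma num_est (n M N X p j : ℕ) (hn : 1 ≤ n) (hp : M * (4 * n + X) < p) (hp2 : 2 ≤ p)
    (hj : 2 * N ≤ j) : 2 * n * Nat.log p (M * (j + 1 + X)) + N ≤ j := by
  set r := j / (4 * n) with hr
  have h1 : j < 4 * n * (r + 1) := by
    have := Nat.lt_mul_div_succ j (by omega : 0 < 4 * n)
    exact this
  have h2 : 4 * n * r ≤ j := Nat.mul_div_le j (4 * n)
  have h3 : M * (j + 1 + X) < p ^ (r + 1) := by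
    have h4 : j + 1 + X ≤ (4 * n + X) * (r + 1) := by nlinarith
    have h5 : r + 1 ≤ 2 ^ r := Nat.lt_two_pow_self
    have h6 : 2 ^ r ≤ p ^ r := Nat.pow_le_pow_left hp2 r
    calc M * (j + 1 + X) ≤ M * ((4 * n + X) * (r + 1)) := Nat.mul_le_mul_left M h4
      _ = M * (4 * n + X) * (r + 1) := by ring
      _ ≤ M * (4 * n + X) * p ^ r := Nat.mul_le_mul_left _ (h5.trans h6)
      _ < p * p ^ r := Nat.mul_lt_mul_of_pos_right hp (Nat.pow_pos (by omega))
      _ = p ^ (r + 1) := by ring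
  have h7 : Nat.log p (M * (j + 1 + X)) < r + 1 := Nat.log_lt_of_lt_pow' (Nat.succ_ne_zero r) h3
  have h8 : 2 * n * Nat.log p (M * (j + 1 + X)) ≤ 2 * n * r := Nat.mul_le_mul_left _ (by omega)
  have h9 : 2 * (2 * n * r) = 4 * n * r := by ring
  omega

/-- TAIL -/
theorem tail (hE : EeStmt) (hG : GamStmt) (hDle : DleStmt) (hFrb : FrbStmt) : TailStmt := by
  intro n M N X
  refine ⟨M * (4 * n + X) + X + n + 4, ?_⟩
  intro p _ D f' Dl hp hn hM hD hf hDl s hs hsl J hJ m m' g hm hm'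
  have hpp : 0 < p := (Fact.out : p.Prime).pos
  have hFB := (hFrb (qG n M) p).1
  obtain ⟨_, hDle2⟩ := hDle n M p (LL (qG n M) ℤ_[p]) (kL (qG n M) ℤ_[p]) (phL (qG n M) ℤ_[p] p)
    (thLt (qG n M) ℤ_[p]) (cgen D f') hFB
  obtain ⟨hDc, hDlev⟩ := hDle2 Dl hDl
  have hs0 : 1 ≤ s 0 := by
    by_contra h0
    have := hs ⟨0, hn⟩
    have h1 : s 0 = 0 := by omega
    rw [h1] at this
    omega
  have hmm : mm p (s 0) = 1 := (hG p Fact.out (by omega)).2.2.2.2.2.2.2 (s 0) hs0 (by omega)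
  -- `Dl` is integral
  have hDS : H51.CS (NS (qG n M) ℤ_[p]) Dl := by
    apply H51.cs_Dl (cgen D f') (fun β => phL (qG n M) ℤ_[p] p (cgen D f' β))
      (fun β => NN_cgen D f' β) (fun β => NN_phL hpp (NN_cgen D f' β)) (fun x hx => NN_sat hx) Dl hDl
  set V : PP n (LL (qG n M) ℤ_[p]) := VV p (Fp (cgen (M := M) D f')) (mon s) with hV
  have hVeq : V = C ((gam p (s 0) : ℕ) : LL (qG n M) ℤ_[p]) * mon s *
      Fp (cgen (M := M) D f') ^ (p - s 0) := by
    rw [hV, H51.VV_hom p _ (hasLev_mon s), hmm, mul_one]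
  have hVl : HasLev p V := by
    have h1 := hasLev_mul (hasLev_mul (H51.hasLev_C ((gam p (s 0) : ℕ) : LL (qG n M) ℤ_[p]))
      (hasLev_mon (R := LL (qG n M) ℤ_[p]) s))
      (hasLev_pow (hasLev_Fp (cgen (M := M) D f')) (p - s 0))
    rw [← hVeq] at h1
    have e : 0 + s 0 + (p - s 0) * 1 = p := by omega
    rwa [e] at h1
  have hVc : IsCone M true V := by
    rw [hVeq]
    apply isCone_mul _ (isCone_pow (isCone_Fp _) _)
    rw [mul_comm]
    exact isCone_mul (isCone_mon hs) (H51.isCone_C _)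
  have hVS : H51.CS (NS (qG n M) ℤ_[p]) V := by
    rw [hVeq]
    apply H51.cs_mul (H51.cs_mul (H51.cs_C (natCast_mem _ _)) (H51.cs_monomial (Subring.one_mem _)))
    exact H51.cs_pow (H51.cs_Fp (fun β => NN_cgen D f' β)) _
  set Pj : ℕ → PP n (LL (qG n M) ℤ_[p]) := fun j => psi p (Dl ^ j * V) with hPj
  have hPsi : ∀ J' : ℕ, Psi p (kL (qG n M) ℤ_[p]) J' (Fp (cgen (M := M) D f')) Dl (mon s) =
      ∑ j ∈ Finset.range J', C (kL (qG n M) ℤ_[p] (ee p j)) * Pj j := by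
    intro J'
    unfold Psi TJ
    rw [← hV, Finset.sum_mul, H51.psi_sum hpp]
    apply Finset.sum_congr rfl
    intro j _
    rw [mul_assoc, H51.psi_C_mul hpp]
  have hdiff : Cph M D p (map (zq p) f')
      (Psi p (kL (qG n M) ℤ_[p]) J (Fp (cgen (M := M) D f')) Dl (mon s)) - Cph M D p (map (zq p) f')
      (Psi p (kL (qG n M) ℤ_[p]) (2 * N) (Fp (cgen (M := M) D f')) Dl (mon s)) =
      ∑ j ∈ Finset.Ico (2 * N) J, mL (qG n M) (zq p) (kL (qG n M) ℤ_[p] (ee p j)) *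
        Cph M D p (map (zq p) f') (Pj j) := by
    rw [hPsi, hPsi, Cph_sum, Cph_sum, ← Finset.sum_range_add_sum_Ico _ hJ, add_sub_cancel_left]
    apply Finset.sum_congr rfl
    intro j _
    rw [Cph_C_mul]
  rw [hdiff]
  have hpos : (0 : ℝ) ≤ ((p : ℝ) ^ N)⁻¹ := by
    have := hp0 (p := p)
    positivity
  have hQ : QL (X : ℤ) (X * p : ℤ) ((p : ℝ) ^ N)⁻¹ (∑ j ∈ Finset.Ico (2 * N) J,
      mL (qG n M) (zq p) (kL (qG n M) ℤ_[p] (ee p j)) * Cph M D p (map (zq p) f') (Pj j)) := by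
    apply QL_sum hpos
    intro j hj
    rw [Finset.mem_Ico] at hj
    have hPc : IsCone M true (Pj j) := by
      apply H51.isCone_psi hpp
      rw [mul_comm]
      exact isCone_mul hVc (isCone_pow hDc j)
    have hPl : HasLev (j + 1) (Pj j) := by
      apply H51.hasLev_psi hpp
      have h1 := hasLev_mul (hasLev_pow hDlev j) hVl
      have e : j * p + p = p * (j + 1) := by ring
      rwa [e] at h1
    have hPS : ∀ t, NN (coeff t (Pj j)) := by
      have : H51.CS (NS (qG n M) ℤ_[p]) (Pj j) :=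
        H51.cs_psi hpp (H51.cs_mul (H51.cs_pow hDS j) hVS)
      exact this
    have h1 := QL_kL_mul (ee p j) (QL_Cph hn hM hD f' hf (X := X) (by omega) j (Pj j) hPS hPc hPl)
    intro a ha b hb g'
    refine (h1 a ha b hb g').trans ?_
    have hjf : ((j.factorial : ℕ) : ℚ_[p]) ≠ 0 := by exact_mod_cast j.factorial_ne_zero
    have hej : ((j.factorial : ℕ) : ℚ_[p]) * zq p (ee p j) = (-(p : ℚ_[p])) ^ j := by
      have := congrArg (zq p) ((hE p (by omega)).2.1 j)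
      rw [map_mul, map_natCast, map_pow, map_neg, map_natCast] at this
      exact this
    have hn1 : ‖zq p (ee p j)‖ * ‖((j.factorial : ℕ) : ℚ_[p])‖ = ((p : ℝ)⁻¹) ^ j := by
      rw [← norm_mul, mul_comm, hej, norm_pow, norm_neg, Padic.norm_p]
    rw [← mul_assoc, hn1]
    have hest := num_est n M N X p j hn (by omega) (by omega) hj.1
    have hp00 := hp0 (p := p)
    have h3 : ((p : ℝ)⁻¹) ^ j * (p : ℝ) ^ (2 * n * Nat.log p (M * (j + 1 + X))) ≤
        ((p : ℝ) ^ N)⁻¹ := by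
      rw [inv_pow, inv_mul_le_iff₀ (by positivity), ← div_eq_mul_inv, le_div_iff₀ (by positivity),
        ← pow_add]
      exact pow_le_pow_right₀ hp1 hest
    exact h3
  exact hQ m hm m' hm' g

end Pool.Agent.Helper95_CM.H98
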