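import Pool.Agent.Helper98_CM.Ser

set_option autoImplicit false
set_option linter.unusedSectionVars false

noncomputable section

namespace Pool.Agent.Helper95_CM.H98

open MvPolynomial

lemma isCone_mul {n M : ℕ} {b : Bool} {R : Type} [CommRing R] {x y : PP n R}
    (hx : IsCone M b x) (hy : IsCone M false y) : IsCone M b (x * y) := by
  classical
  intro s hs
  rw [coeff_mul] at hs
  obtain ⟨p, hp, hne⟩ := Finset.exists_ne_zero_of_sum_ne_zero hs
  rw [Finset.HasAntidiagonal.mem_antidiagonal] at hp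
  have h1 := hx p.1 (left_ne_zero_of_mul hne)
  have h2 := hy p.2 (right_ne_zero_of_mul hne)
  rw [← hp]
  cases b with
  | false =>
    intro k
    have a1 := h1 k
    have a2 := h2 k
    rw [Finsupp.add_apply, Finsupp.add_apply, mul_add]
    omega
  | true =>
    intro k
    have a1 := h1 k
    have a2 := h2 k
    rw [Finsupp.add_apply, Finsupp.add_apply, mul_add]
    omega

lemma isCone_sum {n M : ℕ} {b : Bool} {R : Type} [CommRing R] {ι : Type} (S : Finset ι)
    (f : ι → PP n R) (h : ∀ i ∈ S, IsCone M b (f i)) : IsCone M b (∑ i ∈ S, f i) := by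
  classical
  intro s hs
  rw [coeff_sum] at hs
  obtain ⟨i, hi, hne⟩ := Finset.exists_ne_zero_of_sum_ne_zero hs
  exact h i hi s hne

lemma isCone_Fp {n M : ℕ} {R : Type} [CommRing R] (c : Grid n M → R) : IsCone M false (Fp c) := by
  classical
  unfold Fp
  apply isCone_sum
  intro β _ s hs
  rw [coeff_monomial] at hs
  split_ifs at hs with h
  · rw [← h]
    intro k
    rw [gex_succ, gex_zero, mul_one]
    exact Nat.lt_succ_iff.mp (β k).2
  · exact absurd rfl hs

lemma isCone_one {n M : ℕ} {R : Type} [CommRing R] : IsCone M false (1 : PP n R) := by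
  classical
  intro s hs
  rw [coeff_one] at hs
  split_ifs at hs with h
  · rw [← h]
    intro k
    simp
  · exact absurd rfl hs

lemma isCone_pow {n M : ℕ} {R : Type} [CommRing R] {x : PP n R} (hx : IsCone M false x) (N : ℕ) :
    IsCone M false (x ^ N) := by
  induction N with
  | zero => rw [pow_zero]; exact isCone_one
  | succ N ih => rw [pow_succ]; exact isCone_mul ih hx

section
variable {n M : ℕ} {K : Type} [Field K] [CharZero K]

/-- `f~` over `CC` -/
def ftC (M : ℕ) (f : MvPolynomial (Fin n) K) : PP n (CC (qG n M) K) :=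
  Fp (fun β : Grid n M => (HahnSeries.C (ftil f β) : CC (qG n M) K))

/-- `G` over `CC` -/
def GC (n M : ℕ) (K : Type) [Field K] : PP n (CC (qG n M) K) :=
  Fp (fun β : Grid n M => vC (qG n M) K (gi β))

/-- the constant -/
def cab (q : ℕ) (K : Type) [Field K] (a b : ℕ) : CC q K :=
  HahnSeries.C ((-1) ^ b / ((a.factorial : K) * (b.factorial : K)))

lemma Cab_eq (f : MvPolynomial (Fin n) K) (a b : ℕ) (s : Expo n) :
    Cab M f a b s = cab (qG n M) K a b * Ifun M (mon s * ftC M f ^ a * GC n M K ^ b) := rfl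

lemma cab_a (q a b : ℕ) : cab q K (a + 1) b * ((a + 1 : ℕ) : CC q K) = cab q K a b := by
  unfold cab
  rw [← map_natCast (HahnSeries.C : K →+* CC q K) (a + 1), ← map_mul]
  congr 1
  have h1 : ((a.factorial : ℕ) : K) ≠ 0 := by exact_mod_cast a.factorial_ne_zero
  have h2 : ((b.factorial : ℕ) : K) ≠ 0 := by exact_mod_cast b.factorial_ne_zero
  have h3 : ((a + 1 : ℕ) : K) ≠ 0 := by exact_mod_cast (Nat.succ_ne_zero a)
  rw [Nat.factorial_succ]
  push_cast at h3 ⊢
  field_simp

lemma cab_b (q a b : ℕ) : cab q K a (b + 1) * ((b + 1 : ℕ) : CC q K) = -cab q K a b := by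
  unfold cab
  rw [← map_natCast (HahnSeries.C : K →+* CC q K) (b + 1), ← map_mul, ← map_neg]
  congr 1
  have h1 : ((a.factorial : ℕ) : K) ≠ 0 := by exact_mod_cast a.factorial_ne_zero
  have h2 : ((b.factorial : ℕ) : K) ≠ 0 := by exact_mod_cast b.factorial_ne_zero
  have h3 : ((b + 1 : ℕ) : K) ≠ 0 := by exact_mod_cast (Nat.succ_ne_zero b)
  rw [Nat.factorial_succ, pow_succ]
  push_cast at h3 ⊢
  field_simp

/-- multiplication by a level one element -/
lemma Ifun_Fp_mul {R : Type} [CommRing R] [Algebra ℚ R] (w : Grid n M → R) (s : Expo n)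
    (z : PP n R) : Ifun M (Fp w * (mon s * z)) = ∑ β, w β * Ifun M (mon (gex β + s) * z) := by
  rw [← mul_assoc, mon, Fp_mul_monomial, Finset.sum_mul, Ifun_sum]
  apply Finset.sum_congr rfl
  intro β _
  have h : (monomial (gex β + s) (w β * 1) : PP n R) = C (w β) * mon (gex β + s) := by
    rw [mon, C_mul_monomial]
  rw [h, mul_assoc, Ifun_C_mul]

variable (f : MvPolynomial (Fin n) K)

/-- relation for `t d/dt` -/
lemma rel_b (a b : ℕ) (s : Expo n) : ((b + 1 : ℕ) : CC (qG n M) K) * Cab M f a (b + 1) s =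
    -∑ β : Grid n M, vC (qG n M) K (gi β) * Cab M f a b (gex β + s) := by
  have h1 : (mon s * ftC M f ^ a * GC n M K ^ (b + 1) : PP n (CC (qG n M) K)) =
      GC n M K * (mon s * (ftC M f ^ a * GC n M K ^ b)) := by ring
  rw [Cab_eq, ← mul_assoc, mul_comm ((b + 1 : ℕ) : CC (qG n M) K), cab_b, h1]
  rw [show GC n M K = Fp (fun β : Grid n M => vC (qG n M) K (gi β)) from rfl, Ifun_Fp_mul,
    neg_mul, Finset.mul_sum]
  congr 1
  apply Finset.sum_congr rfl
  intro β _
  rw [Cab_eq, mul_assoc (mon (gex β + s))]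
  rw [show GC n M K = Fp (fun β : Grid n M => vC (qG n M) K (gi β)) from rfl]
  ring

/-- relation for `w d/dw` -/
lemma rel_a (a b : ℕ) (s : Expo n) : ((a + 1 : ℕ) : CC (qG n M) K) * Cab M f (a + 1) b s =
    ∑ β : Grid n M, HahnSeries.C (ftil f β) * Cab M f a b (gex β + s) := by
  have h1 : (mon s * ftC M f ^ (a + 1) * GC n M K ^ b : PP n (CC (qG n M) K)) =
      ftC M f * (mon s * (ftC M f ^ a * GC n M K ^ b)) := by ring
  rw [Cab_eq, ← mul_assoc, mul_comm ((a + 1 : ℕ) : CC (qG n M) K), cab_a, h1]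
  rw [show ftC M f = Fp (fun β : Grid n M => (HahnSeries.C (ftil f β) : CC (qG n M) K)) from rfl,
    Ifun_Fp_mul, Finset.mul_sum]
  apply Finset.sum_congr rfl
  intro β _
  rw [Cab_eq, mul_assoc (mon (gex β + s))]
  rw [show ftC M f = Fp (fun β : Grid n M => (HahnSeries.C (ftil f β) : CC (qG n M) K)) from rfl]
  ring

/-- term with `th_i` of a power of `f~` -/
lemma term_a (a b : ℕ) (s : Expo n) (i : Fin (n + 1)) :
    cab (qG n M) K a b * Ifun M (mon s * th i (ftC M f ^ a) * GC n M K ^ b) =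
    if a = 0 then 0 else ∑ β : Grid n M, ((gex β i : ℕ) : CC (qG n M) K) *
      (HahnSeries.C (ftil f β) * Cab M f (a - 1) b (gex β + s)) := by
  cases a with
  | zero =>
    rw [if_pos rfl, pow_zero, (th i).map_one_eq_zero, mul_zero, zero_mul, Ifun_zero, mul_zero]
  | succ a =>
    rw [if_neg (Nat.succ_ne_zero a), Nat.add_sub_cancel, Derivation.leibniz_pow,
      ← Nat.cast_smul_eq_nsmul (CC (qG n M) K), Nat.add_sub_cancel, smul_eq_mul]
    have h0 : th i (ftC M f) = Fp (fun β : Grid n M => ((gex β i : ℕ) : CC (qG n M) K) *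
        HahnSeries.C (ftil f β)) := Yp_eq _ i
    have h1 : (mon s * (((a + 1 : ℕ) : CC (qG n M) K) • (ftC M f ^ a * th i (ftC M f))) *
        GC n M K ^ b : PP n (CC (qG n M) K)) = ((a + 1 : ℕ) : CC (qG n M) K) •
        (th i (ftC M f) * (mon s * (ftC M f ^ a * GC n M K ^ b))) := by
      rw [mul_smul_comm, smul_mul_assoc]
      congr 1
      ring
    rw [h1, Ifun_smul, ← mul_assoc, cab_a, h0, Ifun_Fp_mul, Finset.mul_sum]
    apply Finset.sum_congr rfl
    intro β _
    rw [Cab_eq, mul_assoc (mon (gex β + s))]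
    ring

lemma term_b (a b : ℕ) (s : Expo n) (i : Fin (n + 1)) :
    cab (qG n M) K a b * Ifun M (mon s * ftC M f ^ a * th i (GC n M K ^ b)) =
    if b = 0 then 0 else -∑ β : Grid n M, ((gex β i : ℕ) : CC (qG n M) K) *
      (vC (qG n M) K (gi β) * Cab M f a (b - 1) (gex β + s)) := by
  cases b with
  | zero =>
    rw [if_pos rfl, pow_zero, (th i).map_one_eq_zero, mul_zero, Ifun_zero, mul_zero]
  | succ b =>
    rw [if_neg (Nat.succ_ne_zero b), Nat.add_sub_cancel, Derivation.leibniz_pow,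
      ← Nat.cast_smul_eq_nsmul (CC (qG n M) K), Nat.add_sub_cancel, smul_eq_mul]
    have h0 : th i (GC n M K) = Fp (fun β : Grid n M => ((gex β i : ℕ) : CC (qG n M) K) *
        vC (qG n M) K (gi β)) := Yp_eq _ i
    have h1 : (mon s * ftC M f ^ a * (((b + 1 : ℕ) : CC (qG n M) K) •
        (GC n M K ^ b * th i (GC n M K))) : PP n (CC (qG n M) K)) = ((b + 1 : ℕ) : CC (qG n M) K) •
        (th i (GC n M K) * (mon s * (ftC M f ^ a * GC n M K ^ b))) := by
      rw [mul_smul_comm]
      congr 1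
      ring
    rw [h1, Ifun_smul, ← mul_assoc, cab_b, h0, Ifun_Fp_mul, neg_mul, Finset.mul_sum]
    congr 1
    apply Finset.sum_congr rfl
    intro β _
    rw [Cab_eq, mul_assoc (mon (gex β + s))]
    ring

/-- the main relation -/
lemma rel_D (hn : 1 ≤ n) (hM : 1 ≤ M) (a b : ℕ) (s : Expo n) (hs : InCone M true s)
    (i : Fin (n + 1)) :
    ((s i : ℕ) : CC (qG n M) K) * Cab M f a b s =
      (∑ β : Grid n M, ((gex β i : ℕ) : CC (qG n M) K) *
        (((bin β : ℕ) : CC (qG n M) K) * Cab M f a b (gex β + s)))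
      - (if a = 0 then 0 else ∑ β : Grid n M, ((gex β i : ℕ) : CC (qG n M) K) *
        (HahnSeries.C (ftil f β) * Cab M f (a - 1) b (gex β + s)))
      + (if b = 0 then 0 else ∑ β : Grid n M, ((gex β i : ℕ) : CC (qG n M) K) *
        (vC (qG n M) K (gi β) * Cab M f a (b - 1) (gex β + s))) := by
  set z : PP n (CC (qG n M) K) := mon s * ftC M f ^ a * GC n M K ^ b with hz
  have hzc : IsCone M true z :=
    isCone_mul (isCone_mul (isCone_mon hs) (isCone_pow (isCone_Fp _) a)) (isCone_pow (isCone_Fp _) b)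
  have h := ifn_one (R := CC (qG n M) K) hn hM i z hzc
  rw [Dop_apply, Ifun_sub, sub_eq_zero] at h
  have hth : th i z = ((s i : ℕ) : CC (qG n M) K) • z + mon s * th i (ftC M f ^ a) * GC n M K ^ b +
      mon s * ftC M f ^ a * th i (GC n M K ^ b) := by
    rw [hz, Derivation.leibniz, Derivation.leibniz, th_mon]
    simp only [smul_eq_mul, Algebra.smul_def]
    ring
  rw [hth, Ifun_add, Ifun_add, Ifun_smul] at h
  have hR : cab (qG n M) K a b * Ifun M (Yp (fun β : Grid n M => ((bin β : ℕ) : CC (qG n M) K)) i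
      * z) = ∑ β : Grid n M, ((gex β i : ℕ) : CC (qG n M) K) *
        (((bin β : ℕ) : CC (qG n M) K) * Cab M f a b (gex β + s)) := by
    rw [Yp_eq, hz, mul_assoc (mon s), Ifun_Fp_mul, Finset.mul_sum]
    apply Finset.sum_congr rfl
    intro β _
    rw [Cab_eq, mul_assoc (mon (gex β + s))]
    ring
  have h2 := congrArg (fun y => cab (qG n M) K a b * y) h
  simp only [mul_add] at h2
  rw [hR, term_a, term_b] at h2
  have h3 : cab (qG n M) K a b * (((s i : ℕ) : CC (qG n M) K) * Ifun M z) =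
      ((s i : ℕ) : CC (qG n M) K) * Cab M f a b s := by
    rw [Cab_eq]
    ring
  rw [h3] at h2
  by_cases hb : b = 0
  · rw [if_pos hb] at h2 ⊢
    rw [← h2]
    ring
  · rw [if_neg hb] at h2 ⊢
    rw [← h2]
    ring

/-! ### coefficients of `Cm` -/

lemma cf_Cm (D : ℕ) (s : Expo n) (m a : ℤ) : cf (Cm M D f s) m a =
    if m < 0 then 0 else if D ∣ m.natAbs then
      (if a < 0 then 0 else Cab M f a.natAbs (m.natAbs / D) s) else 0 := by
  unfold cf Cm
  rw [PowerSeries.coeff_coe]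
  by_cases hm : m < 0
  · rw [if_pos hm, if_pos hm]
    rfl
  · rw [if_neg hm, if_neg hm, PowerSeries.coeff_mk]
    by_cases hd : D ∣ m.natAbs
    · rw [if_pos hd, if_pos hd, PowerSeries.coeff_coe, PowerSeries.coeff_mk]
    · rw [if_neg hd, if_neg hd]
      rfl

lemma cf_Cm_neg_m (D : ℕ) (s : Expo n) {m : ℤ} (a : ℤ) (h : m < 0) : cf (Cm M D f s) m a = 0 := by
  rw [cf_Cm, if_pos h]

lemma cf_Cm_neg_a (D : ℕ) (s : Expo n) (m : ℤ) {a : ℤ} (h : a < 0) : cf (Cm M D f s) m a = 0 := by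
  rw [cf_Cm, if_pos h]
  split_ifs <;> rfl

lemma cf_Cm_nd (D : ℕ) (s : Expo n) {m : ℤ} (a : ℤ) (h : ¬ (D : ℤ) ∣ m) :
    cf (Cm M D f s) m a = 0 := by
  rw [cf_Cm]
  split_ifs with h1 h2 h3 <;> try rfl
  exfalso
  apply h
  exact Int.natCast_dvd.mpr h2

lemma cf_Cm_nat {D : ℕ} (hD : 1 ≤ D) (s : Expo n) (a b : ℕ) :
    cf (Cm M D f s) ((D : ℤ) * (b : ℤ)) (a : ℤ) = Cab M f a b s := by
  have e1 : ((D : ℤ) * (b : ℤ)).natAbs = D * b := by
    rw [← Nat.cast_mul, Int.natAbs_natCast]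
  rw [cf_Cm, if_neg (not_lt.mpr (by positivity)), e1, if_pos (Dvd.intro _ rfl), if_neg (by omega),
    Int.natAbs_natCast, Nat.mul_div_cancel_left _ hD]

lemma cf_Cm_pa {D : ℕ} (hD : 1 ≤ D) (s : Expo n) (a b : ℕ) :
    cf (Cm M D f s) ((D : ℤ) * (b : ℤ)) ((a : ℤ) - 1) = if a = 0 then 0 else Cab M f (a - 1) b s := by
  cases a with
  | zero => rw [if_pos rfl, cf_Cm_neg_a f D s _ (by simp)]
  | succ a =>
    rw [if_neg (Nat.succ_ne_zero a), Nat.add_sub_cancel, ← cf_Cm_nat f hD s a b]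
    push_cast
    rw [add_sub_cancel_right]

lemma cf_Cm_pb {D : ℕ} (hD : 1 ≤ D) (s : Expo n) (a b : ℕ) :
    cf (Cm M D f s) ((D : ℤ) * (b : ℤ) - D) (a : ℤ) = if b = 0 then 0 else Cab M f a (b - 1) s := by
  cases b with
  | zero =>
    rw [if_pos rfl, cf_Cm_neg_m f D s _ (by push_cast; rw [mul_zero, zero_sub]; omega)]
  | succ b =>
    rw [if_neg (Nat.succ_ne_zero b), Nat.add_sub_cancel, ← cf_Cm_nat f hD s a b]
    congr 1
    push_cast
    ring

/-- multiplication by the coefficients of the family -/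
lemma cf_cgen_mul (D : ℕ) (β : Grid n M) (x : LL (qG n M) K) (m a : ℤ) :
    cf (cgen D f β * x) m a = ((bin β : ℕ) : CC (qG n M) K) * cf x m a
      - HahnSeries.C (ftil f β) * cf x m (a - 1) + vC (qG n M) K (gi β) * cf x (m - D) a := by
  unfold cgen
  rw [add_mul, sub_mul, cf_add, cf_sub, cf_nat_mul, mul_assoc, cf_wL_mul, cf_kL_mul, mul_assoc,
    cf_tL_mul, cf_vL_mul]

lemma cf_one_zero {q : ℕ} {R : Type} [CommRing R] {m a : ℤ} (h : m ≠ 0 ∨ a ≠ 0) :
    cf (1 : LL q R) m a = 0 := by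
  unfold cf
  rcases h with h | h
  · have h1 : (1 : LL q R).coeff m = 0 := by
      show (1 : HahnSeries ℤ (OO q R)).coeff m = 0
      rw [HahnSeries.coeff_one, if_neg h]
    rw [h1]
    rfl
  · by_cases hm : m = 0
    · subst hm
      have h1 : (1 : LL q R).coeff 0 = 1 := by
        show (1 : HahnSeries ℤ (OO q R)).coeff 0 = 1
        rw [HahnSeries.coeff_one, if_pos rfl]
      rw [h1]
      show (1 : HahnSeries ℤ (CC q R)).coeff a = 0
      rw [HahnSeries.coeff_one, if_neg h]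
    · have h1 : (1 : LL q R).coeff m = 0 := by
        show (1 : HahnSeries ℤ (OO q R)).coeff m = 0
        rw [HahnSeries.coeff_one, if_neg hm]
      rw [h1]
      rfl

lemma cf_one_mul_m {q : ℕ} {R : Type} [CommRing R] (m a c : ℤ) :
    ((m : ℤ) : CC q R) * cf (1 : LL q R) (m - c) a = ((c : ℤ) : CC q R) * cf (1 : LL q R) (m - c) a := by
  by_cases h : m - c = 0
  · have : m = c := by omega
    rw [this]
  · rw [cf_one_zero (Or.inl h), mul_zero, mul_zero]

lemma cf_one_mul_a {q : ℕ} {R : Type} [CommRing R] (m a c : ℤ) :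
    ((a : ℤ) : CC q R) * cf (1 : LL q R) m (a - c) = ((c : ℤ) : CC q R) * cf (1 : LL q R) m (a - c) := by
  by_cases h : a - c = 0
  · have : a = c := by omega
    rw [this]
  · rw [cf_one_zero (Or.inr h), mul_zero, mul_zero]

lemma thLt_cgen (D : ℕ) (β : Grid n M) : thLt (qG n M) K (cgen D f β) =
    (D : LL (qG n M) K) * (tL (qG n M) K ^ D * vL (qG n M) K (gi β)) := by
  apply cf_ext
  intro m a
  have h1 : cgen D f β = cgen D f β * 1 := (mul_one _).symm
  rw [cf_thLt, h1, cf_cgen_mul, cf_nat_mul, cf_tL_mul]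
  have h2 : vL (qG n M) K (gi β) = vL (qG n M) K (gi β) * 1 := (mul_one _).symm
  rw [h2, cf_vL_mul]
  have e1 := cf_one_mul_m (q := qG n M) (R := K) m a 0
  have e2 := cf_one_mul_m (q := qG n M) (R := K) m (a - 1) 0
  have e3 := cf_one_mul_m (q := qG n M) (R := K) m a D
  rw [sub_zero] at e1 e2
  push_cast at e1 e2 e3
  linear_combination ((bin β : ℕ) : CC (qG n M) K) * e1 - HahnSeries.C (ftil f β) * e2 +
    vC (qG n M) K (gi β) * e3

lemma thLw_cgen (D : ℕ) (β : Grid n M) : thLw (qG n M) K (cgen D f β) =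
    -(wL (qG n M) K * kL (qG n M) K (ftil f β)) := by
  apply cf_ext
  intro m a
  have h1 : cgen D f β = cgen D f β * 1 := (mul_one _).symm
  rw [cf_thLw, h1, cf_cgen_mul, cf_neg, cf_wL_mul]
  have h2 : kL (qG n M) K (ftil f β) = kL (qG n M) K (ftil f β) * 1 := (mul_one _).symm
  rw [h2, cf_kL_mul]
  have e1 := cf_one_mul_a (q := qG n M) (R := K) m a 0
  have e2 := cf_one_mul_a (q := qG n M) (R := K) m a 1
  have e3 := cf_one_mul_a (q := qG n M) (R := K) (m - D) a 0
  rw [sub_zero] at e1 e3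
  push_cast at e1 e2 e3
  linear_combination ((bin β : ℕ) : CC (qG n M) K) * e1 - HahnSeries.C (ftil f β) * e2 +
    vC (qG n M) K (gi β) * e3

/-- horizontality on monomials -/
lemma thLt_Cm {D : ℕ} (hD : 1 ≤ D) (s : Expo n) : thLt (qG n M) K (Cm M D f s) =
    -∑ β : Grid n M, thLt (qG n M) K (cgen D f β) * Cm M D f (gex β + s) := by
  apply cf_ext
  intro m a
  rw [cf_thLt, cf_neg, cf_sum]
  have h1 : ∀ β : Grid n M, cf (thLt (qG n M) K (cgen D f β) * Cm M D f (gex β + s)) m a =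
      (D : CC (qG n M) K) * (vC (qG n M) K (gi β) * cf (Cm M D f (gex β + s)) (m - D) a) := by
    intro β
    rw [thLt_cgen, mul_assoc, cf_nat_mul, mul_assoc, cf_tL_mul, cf_vL_mul]
  simp only [h1]
  have hz : (∀ β : Grid n M, cf (Cm M D f (gex β + s)) (m - D) a = 0) → cf (Cm M D f s) m a = 0 ∨
      m = 0 → (m : CC (qG n M) K) * cf (Cm M D f s) m a = -∑ β : Grid n M, (D : CC (qG n M) K) *
      (vC (qG n M) K (gi β) * cf (Cm M D f (gex β + s)) (m - D) a) := by
    intro e1 e2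
    rw [Finset.sum_eq_zero (fun β _ => by rw [e1 β, mul_zero, mul_zero]), neg_zero]
    rcases e2 with e2 | e2
    · rw [e2, mul_zero]
    · rw [e2]; push_cast; rw [zero_mul]
  by_cases hd : (D : ℤ) ∣ m
  · obtain ⟨c, rfl⟩ := hd
    by_cases ha : a < 0
    · exact hz (fun β => cf_Cm_neg_a f D _ _ ha) (Or.inl (cf_Cm_neg_a f D _ _ ha))
    · push Not at ha
      obtain ⟨a', rfl⟩ := Int.eq_ofNat_of_zero_le ha
      rcases lt_trichotomy c 0 with hc | hc | hc
      · have : (D : ℤ) * c < 0 := by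
          apply mul_neg_of_pos_of_neg _ hc
          exact_mod_cast hD
        exact hz (fun β => cf_Cm_neg_m f D _ _ (by omega)) (Or.inl (cf_Cm_neg_m f D _ _ this))
      · subst hc
        exact hz (fun β => cf_Cm_neg_m f D _ _ (by omega)) (Or.inr (by ring))
      · obtain ⟨b, hb⟩ := Int.eq_ofNat_of_zero_le hc.le
        cases b with
        | zero => subst hb; simp at hc
        | succ b =>
          have e1 : (D : ℤ) * c - D = (D : ℤ) * (b : ℤ) := by rw [hb]; push_cast; ring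
          rw [e1, hb, cf_Cm_nat f hD]
          simp only [cf_Cm_nat f hD]
          rw [← Finset.mul_sum]
          have h2 := rel_b (M := M) f a' b s
          push_cast at h2 ⊢
          linear_combination (D : CC (qG n M) K) * h2
  · exact hz (fun β => cf_Cm_nd f D _ _ (fun h => hd (by
      have := dvd_add h (dvd_refl (D : ℤ)); rwa [sub_add_cancel] at this)))
      (Or.inl (cf_Cm_nd f D _ _ hd))

lemma thLw_Cm {D : ℕ} (hD : 1 ≤ D) (s : Expo n) : thLw (qG n M) K (Cm M D f s) =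
    -∑ β : Grid n M, thLw (qG n M) K (cgen D f β) * Cm M D f (gex β + s) := by
  apply cf_ext
  intro m a
  rw [cf_thLw, cf_neg, cf_sum]
  have h1 : ∀ β : Grid n M, cf (thLw (qG n M) K (cgen D f β) * Cm M D f (gex β + s)) m a =
      -(HahnSeries.C (ftil f β) * cf (Cm M D f (gex β + s)) m (a - 1)) := by
    intro β
    rw [thLw_cgen, neg_mul, mul_assoc, cf_neg, cf_wL_mul, cf_kL_mul]
  simp only [h1, Finset.sum_neg_distrib, neg_neg]
  have hz : (∀ β : Grid n M, cf (Cm M D f (gex β + s)) m (a - 1) = 0) → cf (Cm M D f s) m a = 0 ∨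
      a = 0 → (a : CC (qG n M) K) * cf (Cm M D f s) m a = ∑ β : Grid n M,
      HahnSeries.C (ftil f β) * cf (Cm M D f (gex β + s)) m (a - 1) := by
    intro e1 e2
    rw [Finset.sum_eq_zero (fun β _ => by rw [e1 β, mul_zero])]
    rcases e2 with e2 | e2
    · rw [e2, mul_zero]
    · rw [e2]; push_cast; rw [zero_mul]
  by_cases hd : (D : ℤ) ∣ m
  · obtain ⟨c, rfl⟩ := hd
    by_cases hc : c < 0
    · have : (D : ℤ) * c < 0 := by
        apply mul_neg_of_pos_of_neg _ hc
        exact_mod_cast hD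
      exact hz (fun β => cf_Cm_neg_m f D _ _ this) (Or.inl (cf_Cm_neg_m f D _ _ this))
    · push Not at hc
      obtain ⟨b, rfl⟩ := Int.eq_ofNat_of_zero_le hc
      rcases lt_trichotomy a 0 with ha | ha | ha
      · exact hz (fun β => cf_Cm_neg_a f D _ _ (by omega)) (Or.inl (cf_Cm_neg_a f D _ _ ha))
      · exact hz (fun β => cf_Cm_neg_a f D _ _ (by omega)) (Or.inr ha)
      · obtain ⟨a', ha'⟩ := Int.eq_ofNat_of_zero_le ha.le
        cases a' with
        | zero => subst ha'; simp at ha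
        | succ a' =>
          have e1 : a - 1 = (a' : ℤ) := by rw [ha']; push_cast; ring
          rw [e1, ha', cf_Cm_nat f hD]
          simp only [cf_Cm_nat f hD]
          exact_mod_cast rel_a (M := M) f a' b s
  · exact hz (fun β => cf_Cm_nd f D _ _ hd) (Or.inl (cf_Cm_nd f D _ _ hd))

/-- the relation of `D_i` on monomials -/
lemma D_Cm (hn : 1 ≤ n) (hM : 1 ≤ M) {D : ℕ} (hD : 1 ≤ D) (s : Expo n) (hs : InCone M true s)
    (i : Fin (n + 1)) : ((s i : ℕ) : LL (qG n M) K) * Cm M D f s =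
    ∑ β : Grid n M, (((gex β i : ℕ) : LL (qG n M) K) * cgen D f β) * Cm M D f (gex β + s) := by
  apply cf_ext
  intro m a
  rw [cf_nat_mul, cf_sum]
  have h1 : ∀ β : Grid n M, cf ((((gex β i : ℕ) : LL (qG n M) K) * cgen D f β) *
      Cm M D f (gex β + s)) m a = ((gex β i : ℕ) : CC (qG n M) K) *
      (((bin β : ℕ) : CC (qG n M) K) * cf (Cm M D f (gex β + s)) m a
      - HahnSeries.C (ftil f β) * cf (Cm M D f (gex β + s)) m (a - 1) +
      vC (qG n M) K (gi β) * cf (Cm M D f (gex β + s)) (m - D) a) := by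
    intro β
    rw [mul_assoc, cf_nat_mul, cf_cgen_mul]
  simp only [h1]
  have hz : cf (Cm M D f s) m a = 0 → (∀ β : Grid n M, cf (Cm M D f (gex β + s)) m a = 0) →
      (∀ β : Grid n M, cf (Cm M D f (gex β + s)) m (a - 1) = 0) →
      (∀ β : Grid n M, cf (Cm M D f (gex β + s)) (m - D) a = 0) →
      ((s i : ℕ) : CC (qG n M) K) * cf (Cm M D f s) m a = ∑ β : Grid n M,
      ((gex β i : ℕ) : CC (qG n M) K) *
      (((bin β : ℕ) : CC (qG n M) K) * cf (Cm M D f (gex β + s)) m a
      - HahnSeries.C (ftil f β) * cf (Cm M D f (gex β + s)) m (a - 1) +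
      vC (qG n M) K (gi β) * cf (Cm M D f (gex β + s)) (m - D) a) := by
    intro e0 e1 e2 e3
    rw [e0, mul_zero, Finset.sum_eq_zero]
    intro β _
    rw [e1, e2, e3]
    ring
  by_cases hd : (D : ℤ) ∣ m
  · obtain ⟨c, rfl⟩ := hd
    by_cases ha : a < 0
    · exact hz (cf_Cm_neg_a f D _ _ ha) (fun β => cf_Cm_neg_a f D _ _ ha)
        (fun β => cf_Cm_neg_a f D _ _ (by omega)) (fun β => cf_Cm_neg_a f D _ _ ha)
    · push Not at ha
      obtain ⟨a', rfl⟩ := Int.eq_ofNat_of_zero_le ha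
      by_cases hc : c < 0
      · have : (D : ℤ) * c < 0 := by
          apply mul_neg_of_pos_of_neg _ hc
          exact_mod_cast hD
        exact hz (cf_Cm_neg_m f D _ _ this) (fun β => cf_Cm_neg_m f D _ _ this)
          (fun β => cf_Cm_neg_m f D _ _ this) (fun β => cf_Cm_neg_m f D _ _ (by omega))
      · push Not at hc
        obtain ⟨b, rfl⟩ := Int.eq_ofNat_of_zero_le hc
        simp only [cf_Cm_nat f hD, cf_Cm_pa f hD, cf_Cm_pb f hD]
        rw [rel_D f hn hM a' b s hs i]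
        by_cases ha0 : a' = 0
        · by_cases hb0 : b = 0
          · simp only [if_pos ha0, if_pos hb0, mul_zero, sub_zero, add_zero]
          · simp only [if_pos ha0, if_neg hb0, mul_zero, sub_zero, mul_add,
              Finset.sum_add_distrib]
        · by_cases hb0 : b = 0
          · simp only [if_neg ha0, if_pos hb0, mul_zero, add_zero, mul_sub,
              Finset.sum_sub_distrib]
          · simp only [if_neg ha0, if_neg hb0, mul_add, mul_sub, Finset.sum_add_distrib,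
              Finset.sum_sub_distrib]
  · exact hz (cf_Cm_nd f D _ _ hd) (fun β => cf_Cm_nd f D _ _ hd) (fun β => cf_Cm_nd f D _ _ hd)
      (fun β => cf_Cm_nd f D _ _ (fun h => hd (by
        have := dvd_add h (dvd_refl (D : ℤ)); rwa [sub_add_cancel] at this)))

/-! ### `Cfun` is linear -/

lemma Cfun_eq_sx (D : ℕ) (x : PP n (LL (qG n M) K)) :
    Cfun M D f x = sx (fun s => AddMonoidHom.mulRight (Cm M D f s)) x := rfl

lemma Cfun_add (D : ℕ) (x y : PP n (LL (qG n M) K)) :
    Cfun M D f (x + y) = Cfun M D f x + Cfun M D f y := by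
  simp only [Cfun_eq_sx, map_add]

lemma Cfun_sub (D : ℕ) (x y : PP n (LL (qG n M) K)) :
    Cfun M D f (x - y) = Cfun M D f x - Cfun M D f y := by
  simp only [Cfun_eq_sx, map_sub]

lemma Cfun_sum (D : ℕ) {ι : Type} (S : Finset ι) (g : ι → PP n (LL (qG n M) K)) :
    Cfun M D f (∑ i ∈ S, g i) = ∑ i ∈ S, Cfun M D f (g i) := by
  simp only [Cfun_eq_sx, map_sum]

lemma Cfun_monomial (D : ℕ) (s : Expo n) (a : LL (qG n M) K) :
    Cfun M D f (monomial s a) = a * Cm M D f s := by
  rw [Cfun_eq_sx, sx_monomial]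
  rfl

lemma Cfun_C_mul (D : ℕ) (a : LL (qG n M) K) (x : PP n (LL (qG n M) K)) :
    Cfun M D f (C a * x) = a * Cfun M D f x := by
  induction x using MvPolynomial.induction_on' with
  | monomial s b => rw [C_mul_monomial, Cfun_monomial, Cfun_monomial, mul_assoc]
  | add x y hx hy => rw [mul_add, Cfun_add, Cfun_add, hx, hy, mul_add]

lemma Cfun_smul (D : ℕ) (a : LL (qG n M) K) (x : PP n (LL (qG n M) K)) :
    Cfun M D f (a • x) = a * Cfun M D f x := by
  rw [smul_eq_C_mul, Cfun_C_mul]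

lemma Cfun_Dop (hn : 1 ≤ n) (hM : 1 ≤ M) {D : ℕ} (hD : 1 ≤ D) (i : Fin (n + 1))
    (σ : PP n (LL (qG n M) K)) (hσ : IsCone M true σ) :
    Cfun M D f (Dop (cgen D f) i σ) = 0 := by
  conv_lhs => rw [eq_sum_smul σ]
  rw [map_sum, Cfun_sum]
  apply Finset.sum_eq_zero
  intro s hs
  rw [map_smul, Cfun_smul, Dop_apply, th_mon, Cfun_sub, Cfun_smul, Yp_eq]
  have h1 : Cfun M D f (mon s) = Cm M D f s := by rw [mon, Cfun_monomial, one_mul]
  have h2 := D_Cm f hn hM hD s (hσ s (mem_support_iff.mp hs)) i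
  rw [h1, mon, Fp_mul_monomial, Cfun_sum]
  simp only [Cfun_monomial, mul_one]
  rw [h2, sub_self, mul_zero]

lemma Cfun_nab {D : ℕ} (d : LL (qG n M) K →+ LL (qG n M) K) (hd : IsDer d)
    (h : ∀ s : Expo n, d (Cm M D f s) = -∑ β : Grid n M, d (cgen D f β) * Cm M D f (gex β + s))
    (x : PP n (LL (qG n M) K)) :
    d (Cfun M D f x) = Cfun M D f (nab d (cgen D f) x) := by
  unfold nab
  rw [Cfun_sub]
  induction x using MvPolynomial.induction_on' with
  | monomial s b =>
    rw [Cfun_monomial, hd, cder_monomial, Cfun_monomial, cder_Fp, Fp_mul_monomial, Cfun_sum, h,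
      sub_eq_add_neg]
    congr 1
    rw [mul_neg, Finset.mul_sum]
    congr 1
    apply Finset.sum_congr rfl
    intro β _
    rw [Cfun_monomial]
    ring
  | add x y hx hy =>
    rw [Cfun_add, map_add, hx, hy, cder_add, mul_add, Cfun_add, Cfun_add]
    ring

end

end Pool.Agent.Helper95_CM.H98
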