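import Pool.Agent.Helper98_CM.Ifun

set_option autoImplicit false
set_option linter.unusedSectionVars false

noncomputable section

namespace Pool.Agent.Helper95_CM.H98

open MvPolynomial

section
variable {n M : ℕ} {R : Type} [CommRing R]

lemma th_monomial (i : Fin (n + 1)) (s : Expo n) (a : R) :
    th i (monomial s a : PP n R) = (s i : R) • monomial s a := by
  have h : th i (monomial s a : PP n R) = X i * pderiv i (monomial s a) := rfl
  rw [h, X_mul_pderiv_monomial, ← Nat.cast_smul_eq_nsmul R]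

lemma th_mon (i : Fin (n + 1)) (s : Expo n) :
    th i (mon s : PP n R) = (s i : R) • mon s := th_monomial i s 1

lemma th_X_self (i : Fin (n + 1)) : th i (X i : PP n R) = X i := by
  have h : th i (X i : PP n R) = X i * pderiv i (X i) := rfl
  rw [h, pderiv_X_self, mul_one]

lemma th_X_ne {i j : Fin (n + 1)} (hij : j ≠ i) : th i (X j : PP n R) = 0 := by
  have h : th i (X j : PP n R) = X i * pderiv i (X j) := rfl
  rw [h, pderiv_X_of_ne hij, mul_zero]

lemma th_prod_zero (i : Fin (n + 1)) {ι : Type} [DecidableEq ι] (S : Finset ι) (f : ι → PP n R)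
    (h : ∀ j ∈ S, th i (f j) = 0) : th i (∏ j ∈ S, f j) = 0 := by
  induction S using Finset.induction_on with
  | empty => rw [Finset.prod_empty]; exact (th i).map_one_eq_zero
  | insert a S ha ih =>
    rw [Finset.prod_insert ha, Derivation.leibniz, h a (Finset.mem_insert_self _ _),
      ih (fun j hj => h j (Finset.mem_insert_of_mem hj)), smul_zero, smul_zero, add_zero]

lemma monomial_gex (β : Grid n M) (g : Fin n → R) :
    (monomial (gex β) (∏ k, g k) : PP n R) = X 0 * ∏ k, (C (g k) * X k.succ ^ ((β k : ℕ))) := by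
  have h1 : (monomial (gex β) (∏ k, g k) : PP n R) = C (∏ k, g k) * mon (gex β) := by
    rw [mon, C_mul_monomial, mul_one]
  rw [h1, mon_eq_prod, Finset.prod_mul_distrib, map_prod, gex_zero, pow_one]
  simp only [gex_succ]
  ring

/-- product coefficients -/
lemma Fp_prod (g : Fin n → Fin (M + 1) → R) :
    Fp (fun β : Grid n M => ∏ k, g k (β k)) =
      X 0 * ∏ k, ∑ e : Fin (M + 1), C (g k e) * (X k.succ : PP n R) ^ (e : ℕ) := by
  classical
  rw [Finset.prod_univ_sum, Finset.mul_sum, Fintype.piFinset_univ]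
  unfold Fp
  apply Finset.sum_congr rfl
  intro β _
  exact monomial_gex β (fun k => g k (β k))

lemma one_add_pow_eq (k : Fin n) (M : ℕ) : ∑ e : Fin (M + 1), C (((M.choose e : ℕ) : R)) *
    (X k.succ : PP n R) ^ (e : ℕ) = (1 + X k.succ) ^ M := by
  have h : (1 + X k.succ : PP n R) ^ M = (X k.succ + 1) ^ M := by rw [add_comm (1 : PP n R)]
  rw [h, add_pow, Finset.sum_range]
  apply Finset.sum_congr rfl
  intro e _
  rw [one_pow, mul_one, map_natCast, mul_comm]

lemma Fp_bin : Fp (fun β : Grid n M => ((bin β : ℕ) : R)) = Ep R 1 0 (fun _ => M) := by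
  have h1 : (fun β : Grid n M => ((bin β : ℕ) : R)) =
      fun β : Grid n M => ∏ k, ((M.choose (β k : ℕ) : ℕ) : R) := by
    funext β
    unfold bin
    push_cast
    rfl
  rw [h1]
  have h2 := Fp_prod (n := n) (R := R) (fun (_ : Fin n) (e : Fin (M + 1)) => ((M.choose e : ℕ) : R))
  rw [h2]
  simp only [one_add_pow_eq]
  unfold Ep
  simp

/-- exponent with `M-1` at `k` -/
def dm (M : ℕ) (k : Fin n) : Fin n → ℕ := fun j => if j = k then M - 1 else M

lemma Yp_zero (c : Grid n M → R) : Yp c 0 = Fp c := by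
  unfold Yp Fp
  rw [map_sum]
  apply Finset.sum_congr rfl
  intro β _
  rw [th_monomial, gex_zero, Nat.cast_one, one_smul]

lemma th_Ep_one (k : Fin n) :
    th k.succ (Ep R 1 0 (fun _ : Fin n => M)) = (M : R) • Ep R 1 (up 0 k) (dm M k) := by
  classical
  have hA : ∀ (v : Fin n → ℕ) (m : Fin n → ℕ), Ep R 1 v m =
      (X 0 * ∏ j ∈ Finset.univ.erase k, (X j.succ ^ (v j) * (1 + X j.succ) ^ (m j))) *
        (X k.succ ^ (v k) * (1 + X k.succ) ^ (m k)) := by
    intro v m
    unfold Ep
    rw [prod_sp k, pow_one]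
    ring
  rw [hA, hA, Derivation.leibniz]
  have h0 : th k.succ (X 0 * ∏ j ∈ Finset.univ.erase k, ((X j.succ : PP n R) ^ ((0 : Fin n → ℕ) j) *
      (1 + X j.succ) ^ M)) = 0 := by
    rw [Derivation.leibniz, th_prod_zero, th_X_ne (Fin.succ_ne_zero k).symm, smul_zero, smul_zero,
      add_zero]
    intro j hj
    have hj' : j ≠ k := Finset.ne_of_mem_erase hj
    have hj2 : j.succ ≠ k.succ := fun h => hj' (Fin.succ_injective _ h)
    rw [Pi.zero_apply, pow_zero, one_mul, Derivation.leibniz_pow, map_add,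
      (th k.succ).map_one_eq_zero, th_X_ne hj2, add_zero, smul_zero, smul_zero]
  rw [h0, smul_zero, add_zero]
  have h1 : th k.succ ((X k.succ : PP n R) ^ ((0 : Fin n → ℕ) k) * (1 + X k.succ) ^ M) =
      (M : R) • (X k.succ * (1 + X k.succ) ^ (M - 1)) := by
    rw [Pi.zero_apply, pow_zero, one_mul, Derivation.leibniz_pow, map_add,
      (th k.succ).map_one_eq_zero, th_X_self, zero_add, ← Nat.cast_smul_eq_nsmul R, smul_eq_mul,
      mul_comm ((1 + X k.succ : PP n R) ^ (M - 1))]
  rw [h1, smul_eq_mul, mul_smul_comm]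
  congr 1
  have e1 : (∏ j ∈ Finset.univ.erase k, ((X j.succ : PP n R) ^ ((0 : Fin n → ℕ) j) *
      (1 + X j.succ) ^ M)) = ∏ j ∈ Finset.univ.erase k, ((X j.succ : PP n R) ^ (up 0 k j) *
      (1 + X j.succ) ^ (dm M k j)) := by
    apply Finset.prod_congr rfl
    intro j hj
    have hj' : j ≠ k := Finset.ne_of_mem_erase hj
    rw [up_ne _ hj']
    simp [dm, hj']
  rw [e1, up_self]
  simp [dm]

lemma Ifun_smul' [Algebra ℚ R] (a : R) (x : PP n R) : Ifun M (a • x) = a * Ifun M x := Ifun_smul M a x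

lemma ifn_mon [Algebra ℚ R] (hn : 1 ≤ n) (hM : 1 ≤ M) (i : Fin (n + 1)) (s : Expo n)
    (hs : InCone M true s) :
    Ifun M (Dop (fun β : Grid n M => ((bin β : ℕ) : R)) i (mon s)) = 0 := by
  have hl : 1 ≤ s 0 := by
    by_contra h0
    have := hs ⟨0, hn⟩
    have h1 : s 0 = 0 := by omega
    rw [h1] at this
    omega
  obtain ⟨l, hl'⟩ := Nat.exists_eq_add_of_le' hl
  set u : Fin n → ℕ := fun k => s k.succ with hu
  have hu0 : ∀ k, 0 < u k ∧ u k < M * s 0 := fun k => hs k
  have hI0 : Ifun M (mon s : PP n R) = algebraMap ℚ R ((l.factorial : ℚ) *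
      ∏ k, bet (u k) (M * s 0 - u k)) := by
    rw [mon_eq_Ep, IEp M (s 0) u 0 (fun k => by simpa using hu0 k)]
    simp [hl']
  rw [Dop_apply, Ifun_sub, th_mon, Ifun_smul, hI0]
  refine Fin.cases ?_ (fun k => ?_) i
  · have h2 : M * (s 0 + 1) = M + M * s 0 := by ring
    rw [Yp_zero, Fp_bin, mon_eq_Ep,
      Ep_mul' (l2 := s 0 + 1) (u2 := u) (m2 := fun _ => M) (add_comm _ _)
        (fun k => by simp [hu]) (fun k => by simp),
      IEp2 M (s 0 + 1) u (fun _ => M) (fun k => M * s 0 - u k)
        (fun k => by have h1 := hu0 k; rw [h2]; omega)]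
    rw [← map_natCast (algebraMap ℚ R) (s 0), ← map_mul, ← map_sub, Nat.add_sub_cancel,
      ← mul_assoc, hl', Nat.factorial_succ]
    push_cast
    rw [sub_self]
  · have hY : Yp (fun β : Grid n M => ((bin β : ℕ) : R)) k.succ =
        (M : R) • Ep R 1 (up 0 k) (dm M k) := by
      unfold Yp
      rw [Fp_bin]
      exact th_Ep_one k
    have h2 : M * (s 0 + 1) = M + M * s 0 := by ring
    rw [hY, smul_mul_assoc, Ifun_smul, mon_eq_Ep,
      Ep_mul' (l2 := s 0 + 1) (u2 := up u k) (m2 := dm M k) (add_comm _ _)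
        (fun j => by
          by_cases hj : j = k
          · subst hj; rw [up_self, up_self]; simp [hu]; ring
          · rw [up_ne _ hj, up_ne _ hj]; simp [hu]) (fun k => by simp),
      IEp2 M (s 0 + 1) (up u k) (dm M k) (fun k => M * s 0 - u k)
        (fun j => by
          have h1 := hu0 j
          rw [h2]
          by_cases hj : j = k
          · subst hj; rw [up_self]; simp only [dm, if_true]; omega
          · rw [up_ne _ hj]; simp only [dm, if_neg hj]; omega)]
    rw [Nat.add_sub_cancel, ← map_natCast (algebraMap ℚ R) (s k.succ),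
      ← map_natCast (algebraMap ℚ R) M, ← map_mul, ← map_mul, ← map_sub]
    rw [prod_sp k, prod_sp k (fun j => bet (up u k j) (M * s 0 - u j))]
    have e1 : (∏ j ∈ Finset.univ.erase k, bet (up u k j) (M * s 0 - u j)) =
        ∏ j ∈ Finset.univ.erase k, bet (u j) (M * s 0 - u j) := by
      apply Finset.prod_congr rfl
      intro j hj
      rw [up_ne _ (Finset.ne_of_mem_erase hj)]
    rw [e1, up_self]
    have h1 := hu0 k
    have h3 := bet_succ (u := u k) (v := M * s 0 - u k) (by omega) (by omega)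
    rw [show u k + (M * s 0 - u k) = M * s 0 by omega] at h3
    have h4 : s k.succ = u k := rfl
    rw [h4]
    have h6 : ((s 0).factorial : ℚ) = ((s 0 : ℕ) : ℚ) * (l.factorial : ℚ) := by
      rw [hl', Nat.factorial_succ]
      push_cast
      ring
    have h5 : ((u k : ℕ) : ℚ) * ((l.factorial : ℚ) * (bet (u k) (M * s 0 - u k) *
        ∏ j ∈ Finset.univ.erase k, bet (u j) (M * s 0 - u j))) -
        (M : ℚ) * (((s 0).factorial : ℚ) * (bet (u k + 1) (M * s 0 - u k) *
        ∏ j ∈ Finset.univ.erase k, bet (u j) (M * s 0 - u j))) = 0 := by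
      have h7 : ((u k : ℕ) : ℚ) * ((l.factorial : ℚ) * (bet (u k) (M * s 0 - u k) *
        ∏ j ∈ Finset.univ.erase k, bet (u j) (M * s 0 - u j))) =
        (l.factorial : ℚ) * (∏ j ∈ Finset.univ.erase k, bet (u j) (M * s 0 - u j)) *
          (((u k : ℕ) : ℚ) * bet (u k) (M * s 0 - u k)) := by ring
      rw [h7, ← h3, h6]
      push_cast
      ring
    rw [h5, map_zero]

/-- a polynomial is the sum of its monomials -/
lemma eq_sum_smul (x : PP n R) : x = ∑ s ∈ x.support, (coeff s x) • (mon s : PP n R) := by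
  conv_lhs => rw [as_sum x]
  apply Finset.sum_congr rfl
  intro s _
  rw [mon, smul_monomial, smul_eq_mul, mul_one]

lemma ifn_one [Algebra ℚ R] (hn : 1 ≤ n) (hM : 1 ≤ M) (i : Fin (n + 1)) (σ : PP n R)
    (hσ : IsCone M true σ) :
    Ifun M (Dop (fun β : Grid n M => ((bin β : ℕ) : R)) i σ) = 0 := by
  conv_lhs => rw [eq_sum_smul σ]
  rw [map_sum, Ifun_sum]
  apply Finset.sum_eq_zero
  intro s hs
  rw [map_smul, Ifun_smul, ifn_mon hn hM i s (hσ s (mem_support_iff.mp hs)), mul_zero]

end

/-! ### uniqueness -/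

lemma mkE_eta {n : ℕ} (s : Expo n) : mkE (s 0) (fun k => s k.succ) = s := by
  ext i
  refine Fin.cases ?_ (fun k => ?_) i
  · rfl
  · rfl

lemma isCone_mon {n M : ℕ} {b : Bool} {R : Type} [CommRing R] {s : Expo n} (hs : InCone M b s) :
    IsCone M b (mon s : PP n R) := by
  intro s' hs'
  unfold mon at hs'
  rw [coeff_monomial] at hs'
  split_ifs at hs' with h1
  · rw [← h1]; exact hs
  · exact absurd rfl hs'

lemma isCone_add {n M : ℕ} {b : Bool} {R : Type} [CommRing R] {x y : PP n R} (hx : IsCone M b x)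
    (hy : IsCone M b y) : IsCone M b (x + y) := by
  intro s hs
  rw [coeff_add] at hs
  by_cases h : coeff s x = 0
  · rw [h, zero_add] at hs
    exact hy s hs
  · exact hx s h

lemma isCone_smul {n M : ℕ} {b : Bool} {R : Type} [CommRing R] {x : PP n R} (a : R)
    (hx : IsCone M b x) : IsCone M b (a • x) := by
  intro s hs
  rw [coeff_smul] at hs
  apply hx s
  intro h
  rw [h, smul_zero] at hs
  exact hs rfl

section
variable {n M : ℕ} {K : Type} [Field K] [CharZero K]

lemma G_step (hM : 1 ≤ M) (G : PP n K →ₗ[K] K) (hG : ∀ i (σ : PP n K), IsCone M true σ →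
    G (Dop (fun β : Grid n M => ((bin β : ℕ) : K)) i σ) = 0) (l : ℕ) (u : Fin n → ℕ) (k : Fin n)
    (h : InCone M true (mkE l u)) (h' : InCone M true (mkE l (up u k))) :
    (u k : K) * G (mon (mkE l u)) = ((M : K) * l - 1 - u k) * G (mon (mkE l (up u k))) := by
  have hs : (Ep K l u (up 0 k) : PP n K) = mon (mkE l u) + mon (mkE l (up u k)) := by
    rw [Ep_step, mon_mkE, mon_mkE]
  have h1 := hG k.succ (Ep K l u (up 0 k)) (by
    rw [hs]
    exact isCone_add (isCone_mon h) (isCone_mon h'))
  have h2 := hG 0 ((M : K) • mon (mkE l (up u k))) (isCone_smul _ (isCone_mon h'))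
  have hY : Yp (fun β : Grid n M => ((bin β : ℕ) : K)) k.succ =
      (M : K) • Ep K 1 (up 0 k) (dm M k) := by
    unfold Yp
    rw [Fp_bin]
    exact th_Ep_one k
  have e1 : Yp (fun β : Grid n M => ((bin β : ℕ) : K)) k.succ * Ep K l u (up 0 k) =
      (M : K) • Ep K (l + 1) (up u k) (fun _ => M) := by
    rw [hY, smul_mul_assoc, Ep_mul' (l2 := l + 1) (u2 := up u k) (m2 := fun _ => M) (add_comm _ _)]
    · intro j
      by_cases hj : j = k
      · subst hj; rw [up_self, up_self]; simp; ring
      · rw [up_ne _ hj, up_ne _ hj]; simp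
    · intro j
      by_cases hj : j = k
      · subst hj; rw [up_self]; simp [dm]; omega
      · rw [up_ne _ hj]; simp [dm, hj]
  have e2 : Yp (fun β : Grid n M => ((bin β : ℕ) : K)) 0 * ((M : K) • mon (mkE l (up u k))) =
      (M : K) • Ep K (l + 1) (up u k) (fun _ => M) := by
    rw [Yp_zero, Fp_bin, mul_smul_comm, mon_mkE, Ep_mul' (l2 := l + 1) (u2 := up u k)
      (m2 := fun _ => M) (add_comm _ _) (fun j => by simp) (fun j => by simp)]
  rw [Dop_apply, e1, hs, map_add, th_mon, th_mon, map_sub, map_add, map_smul, map_smul,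
    map_smul] at h1
  have h3 : (th 0 : Derivation K (PP n K) (PP n K)) ((M : K) • mon (mkE l (up u k))) =
      (M : K) • th 0 (mon (mkE l (up u k))) := (th 0).map_smul _ _
  rw [Dop_apply, e2, h3, th_mon, map_sub, map_smul, map_smul, map_smul] at h2
  simp only [mkE_succ, mkE_zero, up_self, smul_eq_mul] at h1 h2
  push_cast at h1
  linear_combination h1 - h2

lemma G_level (G : PP n K →ₗ[K] K) (hG : ∀ i (σ : PP n K), IsCone M true σ →
    G (Dop (fun β : Grid n M => ((bin β : ℕ) : K)) i σ) = 0) (s : Expo n) (hs : InCone M true s) :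
    (s 0 : K) * G (mon s) = G (Fp (fun β : Grid n M => ((bin β : ℕ) : K)) * mon s) := by
  have h := hG 0 (mon s) (isCone_mon hs)
  rw [Dop_apply, map_sub, th_mon, map_smul, Yp_zero, sub_eq_zero, smul_eq_mul] at h
  exact h

lemma G_level2 (G : PP n K →ₗ[K] K) (hG : ∀ i (σ : PP n K), IsCone M true σ →
    G (Dop (fun β : Grid n M => ((bin β : ℕ) : K)) i σ) = 0) (s : Expo n) (hs : InCone M true s) :
    (s 0 : K) * G (mon s) = ∑ β : Grid n M, ((bin β : ℕ) : K) * G (mon (gex β + s)) := by
  rw [G_level G hG s hs]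
  unfold Fp
  rw [Finset.sum_mul, map_sum]
  apply Finset.sum_congr rfl
  intro β _
  rw [mon, mon, monomial_mul, mul_one, ← smul_eq_mul, ← map_smul, smul_monomial, smul_eq_mul,
    mul_one]

lemma Iq_ne (M : ℕ) (s : Expo n) (hs : InCone M true s) : (algebraMap ℚ K (Iq M s)) ≠ 0 := by
  have h : Iq M s ≠ 0 := by
    rw [← mkE_eta s, Iq_mkE M (s 0) _ (fun k => hs k)]
    have : 0 < ((s 0 - 1).factorial : ℚ) * ∏ k : Fin n, bet (s k.succ) (M * s 0 - s k.succ) := by
      apply mul_pos
      · positivity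
      · exact Finset.prod_pos (fun k _ => bet_pos _ _)
    exact this.ne'
  intro h0
  exact h ((algebraMap ℚ K).injective (by rw [h0, map_zero]))

lemma inCone_gex_add (β : Grid n M) (s : Expo n) (hs : InCone M true s) :
    InCone M true (gex β + s) := by
  intro k
  have h1 := hs k
  have h2 : ((β k : Fin (M + 1)) : ℕ) < M + 1 := (β k).2
  rw [Finsupp.add_apply, Finsupp.add_apply, gex_succ, gex_zero]
  have h3 : M * (1 + s 0) = M + M * s 0 := by ring
  rw [h3]
  omega

/-- the ratio -/
def rat (M : ℕ) (G : PP n K →ₗ[K] K) (s : Expo n) : K := G (mon s) / algebraMap ℚ K (Iq M s)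

lemma rat_base (hn : 1 ≤ n) (hM : 1 ≤ M) (G : PP n K →ₗ[K] K)
    (hG : ∀ i (σ : PP n K), IsCone M true σ →
    G (Dop (fun β : Grid n M => ((bin β : ℕ) : K)) i σ) = 0) (l : ℕ) :
    ∀ (N : ℕ) (u : Fin n → ℕ), ∑ k, u k = N → InCone M true (mkE l u) →
      rat M G (mkE l u) = rat M G (mkE l (fun _ => 1)) := by
  intro N
  induction N with
  | zero =>
    intro u hu h
    have h1 := (h ⟨0, hn⟩).1
    rw [mkE_succ] at h1
    have := Finset.sum_eq_zero_iff.mp hu ⟨0, hn⟩ (Finset.mem_univ _)
    omega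
  | succ N ih =>
    intro u hu h
    by_cases hall : ∀ k, u k = 1
    · have : u = fun _ => 1 := funext hall
      rw [this]
    · push Not at hall
      obtain ⟨k, hk⟩ := hall
      have h1 : 0 < u k := (h k).1
      set u' : Fin n → ℕ := fun j => if j = k then u j - 1 else u j with hu'
      have huu : u = up u' k := by
        funext j
        by_cases hj : j = k
        · subst hj
          rw [up_self]
          simp [hu']
          omega
        · rw [up_ne _ hj]
          simp [hu', hj]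
      have hk' : u k = u' k + 1 := by
        conv_lhs => rw [huu]
        rw [up_self]
      have hc' : InCone M true (mkE l u') := by
        intro j
        rw [mkE_zero, mkE_succ]
        have h2 := h j
        rw [mkE_zero, mkE_succ] at h2
        by_cases hj : j = k
        · subst hj
          omega
        · have : u' j = u j := by simp [hu', hj]
          omega
      have hsum : ∑ j, u' j = N := by
        have := sum_up u' k
        rw [← huu] at this
        omega
      rw [← ih u' hsum hc']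
      have hG1 := G_step hM G hG l u' k hc' (by rw [← huu]; exact h)
      have hI1 := G_step (K := K) hM (IL M) (fun i σ hσ => ifn_one hn hM i σ hσ) l u' k hc'
        (by rw [← huu]; exact h)
      rw [← huu] at hG1 hI1
      have hIe : ∀ s : Expo n, (IL M : PP n K →ₗ[K] K) (mon s) = algebraMap ℚ K (Iq M s) :=
        fun s => Ifun_mon M s
      rw [hIe, hIe] at hI1
      unfold rat
      rw [div_eq_div_iff (Iq_ne M _ h) (Iq_ne M _ hc')]
      have hu0 : (u' k : K) ≠ 0 := by
        have : 0 < u' k := by omega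
        exact_mod_cast this.ne'
      apply mul_left_cancel₀ hu0
      linear_combination (-(algebraMap ℚ K (Iq M (mkE l u)))) * hG1 + (G (mon (mkE l u))) * hI1

lemma rat_level (hn : 1 ≤ n) (hM : 1 ≤ M) (G : PP n K →ₗ[K] K)
    (hG : ∀ i (σ : PP n K), IsCone M true σ →
    G (Dop (fun β : Grid n M => ((bin β : ℕ) : K)) i σ) = 0) (l : ℕ) (s s' : Expo n)
    (hs : InCone M true s) (hs' : InCone M true s') (hl : s 0 = l) (hl' : s' 0 = l) :
    rat M G s = rat M G s' := by
  have e1 := rat_base hn hM G hG (s 0) _ (fun k => s k.succ) rfl (by rw [mkE_eta]; exact hs)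
  have e2 := rat_base hn hM G hG (s' 0) _ (fun k => s' k.succ) rfl (by rw [mkE_eta]; exact hs')
  rw [mkE_eta] at e1 e2
  rw [e1, e2, hl, hl']

lemma rat_up (hn : 1 ≤ n) (hM : 1 ≤ M) (G : PP n K →ₗ[K] K)
    (hG : ∀ i (σ : PP n K), IsCone M true σ →
    G (Dop (fun β : Grid n M => ((bin β : ℕ) : K)) i σ) = 0) (s s' : Expo n)
    (hs : InCone M true s) (hs' : InCone M true s') (hl' : s' 0 = s 0 + 1) :
    rat M G s = rat M G s' := by
  have h1 := G_level2 G hG s hs
  have h2 := G_level2 (K := K) (IL M) (fun i σ hσ => ifn_one hn hM i σ hσ) s hs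
  have hIe : ∀ s : Expo n, (IL M : PP n K →ₗ[K] K) (mon s) = algebraMap ℚ K (Iq M s) :=
    fun s => Ifun_mon M s
  simp only [hIe] at h2
  have h3 : ∀ β : Grid n M, G (mon (gex β + s)) = rat M G s' * algebraMap ℚ K (Iq M (gex β + s)) := by
    intro β
    have hc := inCone_gex_add β s hs
    rw [← rat_level hn hM G hG (s 0 + 1) (gex β + s) s' hc hs'
      (by rw [Finsupp.add_apply, gex_zero, add_comm]) hl']
    unfold rat
    rw [div_mul_cancel₀ _ (Iq_ne M _ hc)]
  have h4 : (s 0 : K) * G (mon s) = (s 0 : K) * (rat M G s' * algebraMap ℚ K (Iq M s)) := by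
    rw [h1]
    have : (s 0 : K) * (rat M G s' * algebraMap ℚ K (Iq M s)) =
        rat M G s' * ((s 0 : K) * algebraMap ℚ K (Iq M s)) := by ring
    rw [this, h2, Finset.mul_sum]
    apply Finset.sum_congr rfl
    intro β _
    rw [h3 β]
    ring
  have hs0 : (s 0 : K) ≠ 0 := by
    have : 0 < s 0 := by
      by_contra h0
      have := hs ⟨0, hn⟩
      have h1 : s 0 = 0 := by omega
      rw [h1] at this
      omega
    exact_mod_cast this.ne'
  have h5 := mul_left_cancel₀ hs0 h4
  unfold rat at h5 ⊢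
  rw [h5, mul_div_assoc, div_self (Iq_ne M _ hs), mul_one]

lemma rat_all (hn : 1 ≤ n) (hM : 2 ≤ M) (G : PP n K →ₗ[K] K)
    (hG : ∀ i (σ : PP n K), IsCone M true σ →
    G (Dop (fun β : Grid n M => ((bin β : ℕ) : K)) i σ) = 0) (s0 : Expo n)
    (hs0 : InCone M true s0) (h0 : s0 0 = 1) (l : ℕ) : ∀ s : Expo n, InCone M true s → s 0 = l + 1 →
    rat M G s = rat M G s0 := by
  induction l with
  | zero =>
    intro s hs hl
    exact rat_level hn (by omega) G hG 1 s s0 hs hs0 hl h0
  | succ l ih =>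
    intro s hs hl
    set s' : Expo n := mkE (l + 1) (fun _ => 1) with hs'
    have hc : InCone M true s' := by
      intro k
      rw [hs', mkE_zero, mkE_succ]
      refine ⟨one_pos, ?_⟩
      nlinarith
    rw [← ih s' hc rfl]
    exact (rat_up hn (by omega) G hG s' s hc hs (by rw [hl]; rfl)).symm

end

/-- IFN -/
theorem ifn : IfnStmt := by
  intro n M K _ _ hn hM
  refine ⟨fun i σ hσ => ifn_one hn (by omega) i σ hσ, ?_⟩
  intro G hG s0 hs0 h0 s hs
  have hpos : 0 < s 0 := by
    by_contra h0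
    have := hs ⟨0, hn⟩
    have h1 : s 0 = 0 := by omega
    rw [h1] at this
    omega
  have h := rat_all hn hM G hG s0 hs0 h0 (s 0 - 1) s hs (by omega)
  unfold rat at h
  rw [div_eq_div_iff (Iq_ne M _ hs) (Iq_ne M _ hs0)] at h
  exact h

end Pool.Agent.Helper95_CM.H98
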