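import Pool.Agent.Helper98_CM.Sup

set_option autoImplicit false
set_option linter.unusedSectionVars false

noncomputable section

namespace Pool.Agent.Helper95_CM.H98

open MvPolynomial

/-! ### beta -/

/-- `B(u, v)` for positive integers -/
def bet (u v : ℕ) : ℚ := ((u - 1).factorial : ℚ) * ((v - 1).factorial : ℚ) / ((u + v - 1).factorial : ℚ)

lemma bet_pos (u v : ℕ) : 0 < bet u v := by
  unfold bet
  positivity

lemma bet_succ {u v : ℕ} (hu : 1 ≤ u) (hv : 1 ≤ v) :
    bet (u + 1) v * ((u + v : ℕ) : ℚ) = (u : ℚ) * bet u v := by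
  obtain ⟨a, rfl⟩ := Nat.exists_eq_add_of_le' hu
  obtain ⟨b, rfl⟩ := Nat.exists_eq_add_of_le' hv
  unfold bet
  have e1 : a + 1 + 1 - 1 = a + 1 := by omega
  have e2 : b + 1 - 1 = b := by omega
  have e3 : a + 1 + 1 + (b + 1) - 1 = (a + b + 1) + 1 := by omega
  have e4 : a + 1 - 1 = a := by omega
  have e5 : a + 1 + (b + 1) - 1 = a + b + 1 := by omega
  rw [e1, e2, e3, e4, e5, Nat.factorial_succ a, Nat.factorial_succ (a + b + 1)]
  have h1 : (((a + b + 1).factorial : ℕ) : ℚ) ≠ 0 := by positivity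
  push_cast
  have h2 : ((a : ℚ) + b + 1 + 1) ≠ 0 := by positivity
  field_simp
  ring

lemma bet_comm (u v : ℕ) : bet u v = bet v u := by
  unfold bet
  rw [add_comm u v, mul_comm]

lemma bet_rec {u v : ℕ} (hu : 1 ≤ u) (hv : 1 ≤ v) :
    bet (u + 1) v + bet u (v + 1) = bet u v := by
  have h1 := bet_succ hu hv
  have h2 := bet_succ hv hu
  rw [bet_comm (v + 1) u, bet_comm v u] at h2
  have h3 : ((u + v : ℕ) : ℚ) ≠ 0 := by
    have : 0 < u + v := by omega
    positivity
  have h4 : (v + u : ℕ) = u + v := by omega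
  rw [h4] at h2
  have h5 : (bet (u + 1) v + bet u (v + 1)) * ((u + v : ℕ) : ℚ) = bet u v * ((u + v : ℕ) : ℚ) := by
    rw [add_mul, h1, h2]
    push_cast
    ring
  exact mul_right_cancel₀ h3 h5

lemma bet_one {u : ℕ} (hu : 1 ≤ u) : bet u 1 = (u : ℚ)⁻¹ := by
  obtain ⟨a, rfl⟩ := Nat.exists_eq_add_of_le' hu
  unfold bet
  have e1 : a + 1 - 1 = a := by omega
  have e3 : a + 1 + 1 - 1 = a + 1 := by omega
  rw [e1, e3, Nat.factorial_succ]
  have h1 : ((a.factorial : ℕ) : ℚ) ≠ 0 := by positivity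
  push_cast
  have h2 : ((a : ℚ) + 1) ≠ 0 := by positivity
  simp
  field_simp

/-! ### Ifun is linear -/

section
variable {n : ℕ} (M : ℕ) {R : Type} [CommRing R] [Algebra ℚ R]

lemma Ifun_eq_sx (x : PP n R) :
    Ifun M x = sx (fun s => AddMonoidHom.mulRight (algebraMap ℚ R (Iq M s))) x := rfl

lemma Ifun_add (x y : PP n R) : Ifun M (x + y) = Ifun M x + Ifun M y := by
  simp only [Ifun_eq_sx, map_add]

lemma Ifun_zero : Ifun M (0 : PP n R) = 0 := by
  rw [Ifun_eq_sx, map_zero]

lemma Ifun_neg (x : PP n R) : Ifun M (-x) = -Ifun M x := by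
  simp only [Ifun_eq_sx, map_neg]

lemma Ifun_sub (x y : PP n R) : Ifun M (x - y) = Ifun M x - Ifun M y := by
  simp only [Ifun_eq_sx, map_sub]

lemma Ifun_sum {ι : Type} (S : Finset ι) (f : ι → PP n R) :
    Ifun M (∑ i ∈ S, f i) = ∑ i ∈ S, Ifun M (f i) := by
  simp only [Ifun_eq_sx, map_sum]

lemma Ifun_monomial (s : Expo n) (a : R) :
    Ifun M (monomial s a : PP n R) = a * algebraMap ℚ R (Iq M s) := by
  rw [Ifun_eq_sx, sx_monomial]
  rfl

lemma Ifun_mon (s : Expo n) : Ifun M (mon s : PP n R) = algebraMap ℚ R (Iq M s) := by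
  rw [mon, Ifun_monomial, one_mul]

lemma Ifun_C_mul (a : R) (x : PP n R) : Ifun M (C a * x) = a * Ifun M x := by
  induction x using MvPolynomial.induction_on' with
  | monomial s b => rw [C_mul_monomial, Ifun_monomial, Ifun_monomial, mul_assoc]
  | add x y hx hy => rw [mul_add, Ifun_add, Ifun_add, hx, hy, mul_add]

lemma Ifun_smul (a : R) (x : PP n R) : Ifun M (a • x) = a * Ifun M x := by
  rw [smul_eq_C_mul, Ifun_C_mul]

lemma Ifun_natCast_mul (a : ℕ) (x : PP n R) : Ifun M ((a : PP n R) * x) = (a : R) * Ifun M x := by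
  rw [← map_natCast (C : R →+* PP n R) a, Ifun_C_mul]

/-- linear version -/
def IL : PP n R →ₗ[R] R where
  toFun := Ifun M
  map_add' := Ifun_add M
  map_smul' := Ifun_smul M

end

/-! ### product elements -/

/-- add one at `k0` -/
def up {n : ℕ} (u : Fin n → ℕ) (k0 : Fin n) : Fin n → ℕ := fun k => if k = k0 then u k + 1 else u k

lemma up_self {n : ℕ} (u : Fin n → ℕ) (k0 : Fin n) : up u k0 k0 = u k0 + 1 := by
  simp [up]

lemma up_ne {n : ℕ} (u : Fin n → ℕ) {k k0 : Fin n} (h : k ≠ k0) : up u k0 k = u k := by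
  simp [up, h]

lemma prod_sp {n : ℕ} {A : Type} [CommMonoid A] (k0 : Fin n) (f : Fin n → A) :
    ∏ k, f k = f k0 * ∏ k ∈ Finset.univ.erase k0, f k :=
  (Finset.mul_prod_erase Finset.univ f (Finset.mem_univ k0)).symm

lemma sum_up {n : ℕ} (u : Fin n → ℕ) (k0 : Fin n) : ∑ k, up u k0 k = ∑ k, u k + 1 := by
  have : ∀ k, up u k0 k = u k + if k = k0 then 1 else 0 := by
    intro k
    unfold up
    split_ifs <;> simp
  simp only [this, Finset.sum_add_distrib]
  simp

section
variable {n : ℕ} {R : Type} [CommRing R]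

/-- `T^l Π y_k^(u_k) (1+y_k)^(m_k)` -/
def Ep (R : Type) [CommRing R] (l : ℕ) (u m : Fin n → ℕ) : PP n R :=
  X 0 ^ l * ∏ k : Fin n, (X k.succ ^ (u k) * (1 + X k.succ) ^ (m k))

lemma Ep_mul (l l' : ℕ) (u u' m m' : Fin n → ℕ) :
    Ep R l u m * Ep R l' u' m' = Ep R (l + l') (u + u') (m + m') := by
  unfold Ep
  have h1 : (X 0 ^ (l + l') : PP n R) = X 0 ^ l * X 0 ^ l' := pow_add _ _ _
  have h2 : (∏ k : Fin n, ((X k.succ : PP n R) ^ ((u + u') k) * (1 + X k.succ) ^ ((m + m') k))) =
      (∏ k : Fin n, ((X k.succ : PP n R) ^ (u k) * (1 + X k.succ) ^ (m k))) *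
      (∏ k : Fin n, ((X k.succ : PP n R) ^ (u' k) * (1 + X k.succ) ^ (m' k))) := by
    rw [← Finset.prod_mul_distrib]
    apply Finset.prod_congr rfl
    intro k _
    rw [Pi.add_apply, Pi.add_apply, pow_add, pow_add]
    ring
  rw [h1, h2]
  ring

lemma Ep_mul' {l l' l2 : ℕ} {u u' u2 m m' m2 : Fin n → ℕ} (hl : l2 = l + l')
    (hu : ∀ k, u2 k = u k + u' k) (hm : ∀ k, m2 k = m k + m' k) :
    Ep R l u m * Ep R l' u' m' = Ep R l2 u2 m2 := by
  have h1 : u2 = u + u' := funext hu
  have h2 : m2 = m + m' := funext hm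
  rw [hl, h1, h2, Ep_mul]

lemma mon_eq_prod (s : Expo n) :
    (mon s : PP n R) = X 0 ^ (s 0) * ∏ k : Fin n, X k.succ ^ (s k.succ) := by
  unfold mon
  rw [monomial_eq, C_1, one_mul, Finsupp.prod_fintype _ _ (fun i => pow_zero _), Fin.prod_univ_succ]

lemma mon_mkE (l : ℕ) (u : Fin n → ℕ) : (mon (mkE l u) : PP n R) = Ep R l u 0 := by
  rw [mon_eq_prod]
  unfold Ep
  simp

lemma mon_eq_Ep (s : Expo n) : (mon s : PP n R) = Ep R (s 0) (fun k => s k.succ) 0 := by
  rw [mon_eq_prod]
  unfold Ep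
  simp

/-- Pascal step -/
lemma Ep_step (l : ℕ) (u m : Fin n → ℕ) (k0 : Fin n) :
    Ep R l u (up m k0) = Ep R l u m + Ep R l (up u k0) m := by
  unfold Ep
  rw [← mul_add]
  congr 1
  rw [prod_sp k0, prod_sp k0 (fun k : Fin n =>
      ((X k.succ : PP n R) ^ (u k) * (1 + X k.succ) ^ (m k))), prod_sp k0 (fun k : Fin n =>
      ((X k.succ : PP n R) ^ (up u k0 k) * (1 + X k.succ) ^ (m k)))]
  have e1 : (∏ x ∈ Finset.univ.erase k0, ((X x.succ : PP n R) ^ (u x) *
      (1 + X x.succ) ^ (up m k0 x))) =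
      ∏ x ∈ Finset.univ.erase k0, ((X x.succ : PP n R) ^ (u x) * (1 + X x.succ) ^ (m x)) := by
    apply Finset.prod_congr rfl
    intro x hx
    rw [up_ne m (Finset.ne_of_mem_erase hx)]
  have e2 : (∏ x ∈ Finset.univ.erase k0, ((X x.succ : PP n R) ^ (up u k0 x) *
      (1 + X x.succ) ^ (m x))) =
      ∏ x ∈ Finset.univ.erase k0, ((X x.succ : PP n R) ^ (u x) * (1 + X x.succ) ^ (m x)) := by
    apply Finset.prod_congr rfl
    intro x hx
    rw [up_ne u (Finset.ne_of_mem_erase hx)]
  rw [e1, e2, up_self, up_self]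
  ring

end

lemma Iq_mkE {n : ℕ} (M l : ℕ) (u : Fin n → ℕ) (h : ∀ k, 0 < u k ∧ u k < M * l) :
    Iq M (mkE l u) = ((l - 1).factorial : ℚ) * ∏ k, bet (u k) (M * l - u k) := by
  unfold Iq
  rw [if_pos]
  · simp only [mkE_zero, mkE_succ]
    congr 1
    apply Finset.prod_congr rfl
    intro k _
    unfold bet
    have := h k
    rw [show u k + (M * l - u k) - 1 = M * l - 1 by omega]
  · intro k
    simp only [mkE_zero, mkE_succ]
    exact h k

lemma Ifun_Ep {n : ℕ} (M : ℕ) {R : Type} [CommRing R] [Algebra ℚ R] (l : ℕ) :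
    ∀ (N : ℕ) (u m : Fin n → ℕ), ∑ k, m k = N → (∀ k, 0 < u k ∧ u k + m k < M * l) →
    Ifun M (Ep R l u m) = algebraMap ℚ R (((l - 1).factorial : ℚ) *
      ∏ k, bet (u k) (M * l - u k - m k)) := by
  intro N
  induction N with
  | zero =>
    intro u m hm h
    have hm0 : m = 0 := by
      funext k
      have := Finset.sum_eq_zero_iff.mp hm k (Finset.mem_univ k)
      exact this
    subst hm0
    rw [← mon_mkE, Ifun_mon, Iq_mkE M l u (fun k => by simpa using h k)]
    simp
  | succ N ih =>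
    intro u m hm h
    have hex : ∃ k0, 0 < m k0 := by
      by_contra hno
      push Not at hno
      have : ∑ k, m k = 0 := Finset.sum_eq_zero (fun k _ => by have := hno k; omega)
      omega
    obtain ⟨k0, hk0⟩ := hex
    set m' : Fin n → ℕ := fun k => if k = k0 then m k - 1 else m k with hm'
    have hmm : m = up m' k0 := by
      funext k
      by_cases hk : k = k0
      · subst hk
        rw [up_self]
        simp [hm']
        omega
      · rw [up_ne _ hk]
        simp [hm', hk]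
    have hk0' : m k0 = m' k0 + 1 := by
      conv_lhs => rw [hmm]
      rw [up_self]
    have hne : ∀ k, k ≠ k0 → m k = m' k := by
      intro k hk
      conv_lhs => rw [hmm]
      rw [up_ne _ hk]
    have hsum : ∑ k, m' k = N := by
      have := sum_up m' k0
      rw [← hmm] at this
      omega
    have hle : ∀ k, m' k ≤ m k := by
      intro k
      by_cases hk : k = k0
      · subst hk
        omega
      · rw [hne k hk]
    conv_lhs => rw [hmm]
    rw [Ep_step, Ifun_add, ih u m' hsum (fun k => by have := h k; have := hle k; omega),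
      ih (up u k0) m' hsum, ← map_add, ← mul_add]
    · congr 2
      rw [prod_sp k0, prod_sp k0 (fun k : Fin n => bet (up u k0 k) (M * l - up u k0 k - m' k)),
        prod_sp k0 (fun k : Fin n => bet (u k) (M * l - u k - m k))]
      have e2 : (∏ x ∈ Finset.univ.erase k0, bet (up u k0 x)
          (M * l - up u k0 x - m' x)) =
          ∏ x ∈ Finset.univ.erase k0, bet (u x) (M * l - u x - m x) := by
        apply Finset.prod_congr rfl
        intro x hx
        have hx' : x ≠ k0 := Finset.ne_of_mem_erase hx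
        rw [up_ne u hx', hne x hx']
      have e1 : (∏ x ∈ Finset.univ.erase k0, bet (u x) (M * l - u x - m' x)) =
          ∏ x ∈ Finset.univ.erase k0, bet (u x) (M * l - u x - m x) := by
        apply Finset.prod_congr rfl
        intro x hx
        have hx' : x ≠ k0 := Finset.ne_of_mem_erase hx
        rw [hne x hx']
      rw [e1, e2, ← add_mul]
      congr 1
      rw [up_self]
      have h0 := h k0
      have a1 : M * l - u k0 - m' k0 = (M * l - u k0 - m k0) + 1 := by omega
      have a2 : M * l - (u k0 + 1) - m' k0 = M * l - u k0 - m k0 := by omega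
      rw [a1, a2, add_comm]
      exact bet_rec (by omega) (by omega)
    · intro k
      by_cases hk : k = k0
      · subst hk
        have := h k
        rw [up_self]
        omega
      · have := h k
        have := hle k
        rw [up_ne u hk]
        omega

lemma IEp {n : ℕ} (M : ℕ) {R : Type} [CommRing R] [Algebra ℚ R] (l : ℕ) (u m : Fin n → ℕ)
    (h : ∀ k, 0 < u k ∧ u k + m k < M * l) :
    Ifun M (Ep R l u m) = algebraMap ℚ R (((l - 1).factorial : ℚ) *
      ∏ k, bet (u k) (M * l - u k - m k)) := Ifun_Ep M l _ u m rfl h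

lemma IEp2 {n : ℕ} (M : ℕ) {R : Type} [CommRing R] [Algebra ℚ R] (l : ℕ) (u m v : Fin n → ℕ)
    (h : ∀ k, 0 < u k ∧ 0 < v k ∧ u k + m k + v k = M * l) :
    Ifun M (Ep R l u m) = algebraMap ℚ R (((l - 1).factorial : ℚ) * ∏ k, bet (u k) (v k)) := by
  rw [IEp M l u m (fun k => by have := h k; omega)]
  congr 2
  apply Finset.prod_congr rfl
  intro k _
  have := h k
  rw [show M * l - u k - m k = v k by omega]

end Pool.Agent.Helper95_CM.H98
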