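import Pool.Agent.Helper98_CM.IFN

set_option autoImplicit false
set_option linter.unusedSectionVars false

noncomputable section

namespace Pool.Agent.Helper95_CM.H98

open MvPolynomial

/-! ### derivations of Hahn series -/

section
variable {G : Type} [AddCommGroup G] [LinearOrder G] [IsOrderedAddMonoid G]

lemma hw_der {R : Type} [CommRing R] (e : G →+ ℤ) (x y : HahnSeries G R) :
    hw e (x * y) = hw e x * y + x * hw e y := by
  ext g
  rw [hw_coeff, HahnSeries.coeff_add, HahnSeries.coeff_mul]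
  have hx : (hw e x).support ⊆ x.support := by
    intro a ha h0
    apply ha
    rw [hw_coeff, h0, mul_zero]
  have hy : (hw e y).support ⊆ y.support := by
    intro a ha h0
    apply ha
    rw [hw_coeff, h0, mul_zero]
  rw [HahnSeries.coeff_mul_left' x.isPWO_support hx, HahnSeries.coeff_mul_right' y.isPWO_support hy,
    ← Finset.sum_add_distrib, Finset.mul_sum]
  apply Finset.sum_congr rfl
  intro a ha
  have hg : a.1 + a.2 = g := by
    rw [Finset.mem_antidiagonal] at ha
    exact ha.2.2
  rw [hw_coeff, hw_coeff, ← hg, map_add]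
  push_cast
  ring

lemma cwA_der {R : Type} [CommRing R] (d : R →+ R) (hd : IsDer d) (x y : HahnSeries G R) :
    cwA d (x * y) = cwA d x * y + x * cwA d y := by
  ext g
  rw [cwA_coeff, HahnSeries.coeff_add, HahnSeries.coeff_mul]
  have hx : (cwA d x).support ⊆ x.support := by
    intro a ha h0
    apply ha
    rw [cwA_coeff, h0, map_zero]
  have hy : (cwA d y).support ⊆ y.support := by
    intro a ha h0
    apply ha
    rw [cwA_coeff, h0, map_zero]
  rw [HahnSeries.coeff_mul_left' x.isPWO_support hx, HahnSeries.coeff_mul_right' y.isPWO_support hy,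
    ← Finset.sum_add_distrib, map_sum]
  apply Finset.sum_congr rfl
  intro a _
  rw [hd, cwA_coeff, cwA_coeff]

end

section
variable (q : ℕ) (R : Type) [CommRing R]

lemma thLt_der : IsDer (thLt q R) := fun x y => hw_der _ x y

lemma thOw_der : IsDer (thOw q R) := fun x y => hw_der _ x y

lemma thLw_der : IsDer (thLw q R) := fun x y => cwA_der _ (thOw_der q R) x y

end

/-! ### coefficients -/

section
variable {q : ℕ} {R : Type} [CommRing R]

/-- coefficient of `t^m w^a` -/
def cf (x : LL q R) (m a : ℤ) : CC q R := (x.coeff m).coeff a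

lemma cf_ext {x y : LL q R} (h : ∀ m a, cf x m a = cf y m a) : x = y := by
  apply HahnSeries.ext
  funext m
  apply HahnSeries.ext
  funext a
  exact h m a

lemma cf_add (x y : LL q R) (m a : ℤ) : cf (x + y) m a = cf x m a + cf y m a := rfl
lemma cf_sub (x y : LL q R) (m a : ℤ) : cf (x - y) m a = cf x m a - cf y m a := rfl
lemma cf_neg (x : LL q R) (m a : ℤ) : cf (-x) m a = -cf x m a := rfl
lemma cf_zero (m a : ℤ) : cf (0 : LL q R) m a = 0 := rfl

/-- additive map -/
def cfA (m a : ℤ) : LL q R →+ CC q R where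
  toFun x := cf x m a
  map_zero' := rfl
  map_add' _ _ := rfl

lemma cf_sum {ι : Type} (S : Finset ι) (f : ι → LL q R) (m a : ℤ) :
    cf (∑ i ∈ S, f i) m a = ∑ i ∈ S, cf (f i) m a := map_sum (cfA m a) f S

lemma cf_C_mul (y : OO q R) (x : LL q R) (m a : ℤ) :
    cf (HahnSeries.C y * x) m a = (y * x.coeff m).coeff a := by
  unfold cf
  have : (HahnSeries.C y * x : LL q R).coeff m = y * x.coeff m := by
    rw [HahnSeries.C_mul_eq_smul, HahnSeries.coeff_smul, smul_eq_mul]
  rw [this]

lemma cf_CC_mul (y : CC q R) (x : LL q R) (m a : ℤ) :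
    cf (HahnSeries.C (HahnSeries.C y : OO q R) * x) m a = y * cf x m a := by
  rw [cf_C_mul]
  have : ((HahnSeries.C y : OO q R) * x.coeff m).coeff a = y * (x.coeff m).coeff a := by
    rw [HahnSeries.C_mul_eq_smul, HahnSeries.coeff_smul, smul_eq_mul]
  rw [this]
  rfl

lemma cf_kL_mul (r : R) (x : LL q R) (m a : ℤ) :
    cf (kL q R r * x) m a = HahnSeries.C r * cf x m a := cf_CC_mul _ _ _ _

lemma cf_vL_mul (i : Fin q) (x : LL q R) (m a : ℤ) :
    cf (vL q R i * x) m a = vC q R i * cf x m a := cf_CC_mul _ _ _ _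

lemma natCast_LL (N : ℕ) : ((N : ℕ) : LL q R) = kL q R (N : R) := by rw [map_natCast]

lemma cf_nat_mul (N : ℕ) (x : LL q R) (m a : ℤ) :
    cf ((N : LL q R) * x) m a = (N : CC q R) * cf x m a := by
  rw [natCast_LL, cf_kL_mul, map_natCast]

lemma cf_wL_mul (x : LL q R) (m a : ℤ) : cf (wL q R * x) m a = cf x m (a - 1) := by
  unfold wL wO tt
  rw [cf_C_mul]
  have h := HahnSeries.coeff_single_mul_add (r := (1 : CC q R)) (x := x.coeff m) (a := a - 1)
    (b := (1 : ℤ))
  rw [sub_add_cancel, one_mul] at h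
  exact h

lemma tL_pow (D : ℕ) : (tL q R) ^ D = HahnSeries.single (D : ℤ) 1 := by
  unfold tL tt
  rw [HahnSeries.single_pow, one_pow, nsmul_eq_mul, mul_one]

lemma cf_tL_mul (D : ℕ) (x : LL q R) (m a : ℤ) :
    cf (tL q R ^ D * x) m a = cf x (m - D) a := by
  rw [tL_pow]
  unfold cf
  have h := HahnSeries.coeff_single_mul_add (r := (1 : OO q R)) (x := x) (a := m - D)
    (b := (D : ℤ))
  rw [sub_add_cancel, one_mul] at h
  exact congrArg (fun y => HahnSeries.coeff y a) h

lemma cf_thLt (x : LL q R) (m a : ℤ) : cf (thLt q R x) m a = (m : CC q R) * cf x m a := by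
  unfold cf
  rw [tht_coeff]
  have h : ((m : ℤ) : OO q R) = HahnSeries.C ((m : ℤ) : CC q R) := by rw [map_intCast]
  rw [h]
  show ((HahnSeries.C ((m : ℤ) : CC q R) : OO q R) * x.coeff m).coeff a = _
  rw [HahnSeries.C_mul_eq_smul, HahnSeries.coeff_smul, smul_eq_mul]

lemma cf_thLw (x : LL q R) (m a : ℤ) : cf (thLw q R x) m a = (a : CC q R) * cf x m a := by
  unfold cf thLw
  rw [cwA_coeff]
  unfold thOw
  rw [tht_coeff]

end

/-! ### `cder` -/

section
variable {n M : ℕ} {R : Type} [CommRing R]

lemma cder_add (d : R →+ R) (x y : PP n R) : cder d (x + y) = cder d x + cder d y := by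
  ext s
  rw [coeff_cder, coeff_add, coeff_add, coeff_cder, coeff_cder, map_add]

lemma cder_zero (d : R →+ R) : cder d (0 : PP n R) = 0 := by
  ext s
  rw [coeff_cder, coeff_zero, map_zero]

lemma cder_monomial (d : R →+ R) (s : Expo n) (a : R) :
    cder d (monomial s a : PP n R) = monomial s (d a) := by
  classical
  ext s'
  rw [coeff_cder, coeff_monomial, coeff_monomial]
  split_ifs
  · rfl
  · rw [map_zero]

lemma cder_sum (d : R →+ R) {ι : Type} (S : Finset ι) (f : ι → PP n R) :
    cder d (∑ i ∈ S, f i) = ∑ i ∈ S, cder d (f i) := by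
  classical
  ext s
  rw [coeff_cder, coeff_sum, coeff_sum, map_sum]
  apply Finset.sum_congr rfl
  intro i _
  rw [coeff_cder]

lemma cder_Fp (d : R →+ R) (c : Grid n M → R) : cder d (Fp c) = Fp (fun β => d (c β)) := by
  unfold Fp
  rw [cder_sum]
  apply Finset.sum_congr rfl
  intro β _
  rw [cder_monomial]

lemma Fp_mul_monomial (c : Grid n M → R) (s : Expo n) (a : R) :
    Fp c * monomial s a = ∑ β : Grid n M, monomial (gex β + s) (c β * a) := by
  unfold Fp
  rw [Finset.sum_mul]
  apply Finset.sum_congr rfl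
  intro β _
  rw [monomial_mul]

lemma Yp_eq (c : Grid n M → R) (i : Fin (n + 1)) :
    Yp c i = Fp (fun β => ((gex β i : ℕ) : R) * c β) := by
  unfold Yp Fp
  rw [map_sum]
  apply Finset.sum_congr rfl
  intro β _
  rw [th_monomial, smul_monomial, smul_eq_mul]

end

end Pool.Agent.Helper95_CM.H98
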