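import Pool.Agent.Helper95_CM.StG

set_option autoImplicit false
set_option linter.unusedSectionVars false

noncomputable section

namespace Pool.Agent.Helper95_CM.H98

open MvPolynomial

section sup
variable {σ : Type} {R A : Type} [CommRing R] [AddCommGroup A]

/-- sum over the support of additive functions of the coefficients -/
def sx (g : (σ →₀ ℕ) → R →+ A) : MvPolynomial σ R →+ A where
  toFun x := x.support.sum fun s => g s (coeff s x)
  map_zero' := by simp
  map_add' x y := by
    classical
    have key : ∀ (z : MvPolynomial σ R) (T : Finset ((σ →₀ ℕ))), z.support ⊆ T →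
        (z.support.sum fun s => g s (coeff s z)) = ∑ s ∈ T, g s (coeff s z) := by
      intro z T hT
      apply Finset.sum_subset hT
      intro s _ hs
      rw [notMem_support_iff.mp hs, map_zero]
    rw [key (x + y) (x.support ∪ y.support) MvPolynomial.support_add,
      key x (x.support ∪ y.support) Finset.subset_union_left,
      key y (x.support ∪ y.support) Finset.subset_union_right, ← Finset.sum_add_distrib]
    apply Finset.sum_congr rfl
    intro s _
    rw [coeff_add, map_add]

lemma sx_apply (g : (σ →₀ ℕ) → R →+ A) (x : MvPolynomial σ R) :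
    sx g x = x.support.sum fun s => g s (coeff s x) := rfl

lemma sx_of_subset (g : (σ →₀ ℕ) → R →+ A) (x : MvPolynomial σ R) (T : Finset ((σ →₀ ℕ)))
    (hT : x.support ⊆ T) : sx g x = ∑ s ∈ T, g s (coeff s x) := by
  rw [sx_apply]
  apply Finset.sum_subset hT
  intro s _ hs
  rw [notMem_support_iff.mp hs, map_zero]

lemma sx_monomial (g : (σ →₀ ℕ) → R →+ A) (s : (σ →₀ ℕ)) (a : R) :
    sx g (monomial s a) = g s a := by
  classical
  rw [sx_of_subset g (monomial s a) {s} (support_monomial_subset)]
  simp

end sup

end Pool.Agent.Helper95_CM.H98
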