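import Pool.Agent.Helper98_CM.EST
import Pool.Agent.Helper51_CM.Basic

set_option autoImplicit false
set_option linter.unusedSectionVars false

noncomputable section

namespace Pool.Agent.Helper95_CM.H98

open MvPolynomial

/-! ### product polynomials -/

section
variable {n : ℕ} {R : Type} [CommRing R]

/-- `T^l Π_k Σ_{w<W} h_k(w) y_k^w` -/
def PX (l : ℕ) (h : Fin n → ℕ → R) (W : ℕ) : PP n R :=
  X 0 ^ l * ∏ k, ∑ w ∈ Finset.range W, C (h k w) * X k.succ ^ w

lemma monomial_mkE (l : ℕ) (v : Fin n → ℕ) (g : Fin n → R) :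
    (monomial (mkE l v) (∏ k, g k) : PP n R) = X 0 ^ l * ∏ k, (C (g k) * X k.succ ^ (v k)) := by
  have h1 : (monomial (mkE l v) (∏ k, g k) : PP n R) = C (∏ k, g k) * mon (mkE l v) := by
    rw [mon, C_mul_monomial, mul_one]
  rw [h1, mon_eq_prod, Finset.prod_mul_distrib, map_prod, mkE_zero]
  simp only [mkE_succ]
  ring

lemma PX_eq (l : ℕ) (h : Fin n → ℕ → R) (W : ℕ) :
    PX l h W = ∑ v ∈ Fintype.piFinset (fun _ : Fin n => Finset.range W),
      monomial (mkE l v) (∏ k, h k (v k)) := by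
  unfold PX
  rw [Finset.prod_univ_sum, Finset.mul_sum]
  apply Finset.sum_congr rfl
  intro v _
  rw [monomial_mkE l v (fun k => h k (v k))]

lemma coeff_PX (l : ℕ) (h : Fin n → ℕ → R) (W : ℕ) (t : Expo n) :
    coeff t (PX l h W) = if t 0 = l ∧ ∀ k : Fin n, t k.succ < W then ∏ k, h k (t k.succ) else 0 := by
  classical
  rw [PX_eq, coeff_sum]
  simp only [coeff_monomial]
  by_cases ht : t 0 = l ∧ ∀ k : Fin n, t k.succ < W
  · rw [if_pos ht, Finset.sum_eq_single (fun k => t k.succ)]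
    · rw [if_pos]
      rw [← ht.1]
      exact mkE_eta t
    · intro v _ hv
      rw [if_neg]
      intro he
      apply hv
      funext k
      rw [← he, mkE_succ]
    · intro hno
      exfalso
      apply hno
      rw [Fintype.mem_piFinset]
      intro k
      rw [Finset.mem_range]
      exact ht.2 k
  · rw [if_neg ht, Finset.sum_eq_zero]
    intro v hv
    rw [if_neg]
    intro he
    apply ht
    rw [← he]
    refine ⟨rfl, fun k => ?_⟩
    rw [mkE_succ]
    rw [Fintype.mem_piFinset] at hv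
    exact Finset.mem_range.mp (hv k)

lemma psi_PX {p : ℕ} (hp : 0 < p) (l V : ℕ) (h : Fin n → ℕ → R) :
    psi p (PX (p * l) h (p * V)) = PX l (fun k v => h k (p * v)) V := by
  ext t
  rw [coeff_psi hp, coeff_PX, coeff_PX]
  have h1 : ((p • t) 0 = p * l ∧ ∀ k : Fin n, (p • t) k.succ < p * V) ↔
      (t 0 = l ∧ ∀ k : Fin n, t k.succ < V) := by
    simp only [Finsupp.smul_apply, smul_eq_mul]
    constructor
    · rintro ⟨a, b⟩
      exact ⟨Nat.eq_of_mul_eq_mul_left hp a, fun k => Nat.lt_of_mul_lt_mul_left (b k)⟩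
    · rintro ⟨a, b⟩
      exact ⟨by rw [a], fun k => Nat.mul_lt_mul_of_pos_left (b k) hp⟩
  by_cases h2 : t 0 = l ∧ ∀ k : Fin n, t k.succ < V
  · rw [if_pos h2, if_pos (h1.mpr h2)]
    rfl
  · rw [if_neg h2, if_neg (fun h3 => h2 (h1.mp h3))]

/-- the factor of `I` -/
def bz (M l w : ℕ) : ℚ := if 0 < w ∧ w < M * l then bet w (M * l - w) else 0

lemma Iq_mkE' (M l : ℕ) (v : Fin n → ℕ) :
    Iq M (mkE l v) = ((l - 1).factorial : ℚ) * ∏ k, bz M l (v k) := by
  by_cases h : ∀ k, 0 < v k ∧ v k < M * l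
  · rw [Iq_mkE M l v h]
    congr 1
    apply Finset.prod_congr rfl
    intro k _
    unfold bz
    rw [if_pos (h k)]
  · have h1 : ¬ InCone M true (mkE l v) := by
      intro hc
      exact h (fun k => hc k)
    unfold Iq
    rw [if_neg h1]
    push Not at h
    obtain ⟨k, hk⟩ := h
    rw [Finset.prod_eq_zero (Finset.mem_univ k), mul_zero]
    unfold bz
    rw [if_neg]
    intro h2
    have := hk h2.1
    omega

lemma Ifun_PX [Algebra ℚ R] (M l : ℕ) (h : Fin n → ℕ → R) (W : ℕ) :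
    Ifun M (PX l h W) = ((l - 1).factorial : R) *
      ∏ k, ∑ w ∈ Finset.range W, h k w * algebraMap ℚ R (bz M l w) := by
  rw [PX_eq, Ifun_sum, Finset.prod_univ_sum, Finset.mul_sum]
  apply Finset.sum_congr rfl
  intro v _
  rw [Ifun_monomial, Iq_mkE', map_mul, map_natCast, map_prod, Finset.prod_mul_distrib]
  ring

lemma shift_pow2 (k : Fin n) (u m W : ℕ) (hW : u + m < W) :
    ∑ w ∈ Finset.range W, C (if u ≤ w then (m.choose (w - u) : R) else 0) *
      (X k.succ : PP n R) ^ w = X k.succ ^ u * (1 + X k.succ) ^ m := by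
  have h : (1 + X k.succ : PP n R) ^ m = (X k.succ + 1) ^ m := by
    rw [add_comm (1 : PP n R)]
  obtain ⟨c, rfl⟩ : ∃ c, W = u + (m + 1) + c := ⟨W - (u + (m + 1)), by omega⟩
  rw [h, add_pow, Finset.mul_sum, Finset.sum_range_add, Finset.sum_range_add,
    Finset.sum_eq_zero (s := Finset.range u), zero_add,
    Finset.sum_eq_zero (s := Finset.range c), add_zero]
  · apply Finset.sum_congr rfl
    intro e _
    rw [if_pos (Nat.le_add_right _ _), Nat.add_sub_cancel_left, map_natCast, one_pow, pow_add]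
    ring
  · intro e _
    rw [if_pos (by omega), Nat.choose_eq_zero_of_lt (by omega), Nat.cast_zero, map_zero, zero_mul]
  · intro e he
    rw [Finset.mem_range] at he
    rw [if_neg (by omega), map_zero, zero_mul]

lemma Ep_eq_PX (l : ℕ) (u m : Fin n → ℕ) (W : ℕ) (hW : ∀ k, u k + m k < W) :
    Ep R l u m = PX l (fun k w => if u k ≤ w then ((m k).choose (w - u k) : R) else 0) W := by
  unfold Ep PX
  congr 1
  apply Finset.prod_congr rfl
  intro k _
  rw [shift_pow2 k (u k) (m k) W (hW k)]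

end

/-! ### valuations -/

section
variable {p : ℕ} [Fact p.Prime]

lemma norm_fact (a b : ℕ) (ha : 1 ≤ a) (hb : 0 < b) (hbp : b < p) :
    ‖(((p * a - b).factorial : ℕ) : ℚ_[p])‖ =
      ‖(((a - 1).factorial : ℕ) : ℚ_[p])‖ * ((p : ℝ)⁻¹) ^ (a - 1) := by
  obtain ⟨a', rfl⟩ := Nat.exists_eq_add_of_le' ha
  have e1 : p * (a' + 1) - b = p * a' + (p - b) := by
    rw [mul_add, mul_one]
    omega
  rw [e1, Nat.add_sub_cancel, norm_nat (Nat.factorial_ne_zero _), norm_nat (Nat.factorial_ne_zero _),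
    padicValNat_factorial_mul_add a' (by omega), padicValNat_factorial_mul, pow_add, mul_inv,
    inv_pow]

lemma key_norm (A M u v : ℕ) (hu : 0 < u) (huM : u < M) (hMp : M < p) (hv : 0 < v) (hvA : v < A) :
    ‖(((p * A - M).choose (p * v - u) : ℕ) : ℚ_[p]) * ((bet v (A - v) : ℚ) : ℚ_[p])‖ ≤ (p : ℝ)⁻¹ := by
  have hA : p * A = p * v + p * (A - v) := by
    rw [← mul_add]
    congr 1
    omega
  have hpv : p ≤ p * v := Nat.le_mul_of_pos_right p hv
  have hpa : p ≤ p * (A - v) := Nat.le_mul_of_pos_right p (by omega)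
  have h1 : (p * A - M).choose (p * v - u) * (p * v - u).factorial *
      (p * (A - v) - (M - u)).factorial = (p * A - M).factorial := by
    have := Nat.choose_mul_factorial_mul_factorial (n := p * A - M) (k := p * v - u) (by omega)
    rw [show p * A - M - (p * v - u) = p * (A - v) - (M - u) by omega] at this
    exact this
  have h2 : bet v (A - v) * (((A - 1).factorial : ℕ) : ℚ) =
      (((v - 1).factorial : ℕ) : ℚ) * (((A - v - 1).factorial : ℕ) : ℚ) := by
    unfold bet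
    rw [show v + (A - v) - 1 = A - 1 by omega]
    have : (((A - 1).factorial : ℕ) : ℚ) ≠ 0 := by exact_mod_cast (A - 1).factorial_ne_zero
    field_simp
  have n1 := congrArg (fun x : ℕ => ‖(x : ℚ_[p])‖) h1
  have n2 := congrArg (fun x : ℚ => ‖(x : ℚ_[p])‖) h2
  simp only [Nat.cast_mul, Rat.cast_mul, Rat.cast_natCast, norm_mul] at n1 n2
  rw [norm_fact v u hv hu (by omega), norm_fact (A - v) (M - u) (by omega) (by omega) (by omega),
    norm_fact A M (by omega) (by omega) hMp] at n1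
  rw [norm_mul]
  have hne : ∀ k : ℕ, 0 < ‖((k.factorial : ℕ) : ℚ_[p])‖ := by
    intro k
    rw [norm_pos_iff]
    exact_mod_cast k.factorial_ne_zero
  have hp := hp0 (p := p)
  have a1 := hne (v - 1)
  have a2 := hne (A - v - 1)
  have a3 := hne (A - 1)
  set x := ‖(((p * A - M).choose (p * v - u) : ℕ) : ℚ_[p])‖
  set y := ‖((bet v (A - v) : ℚ) : ℚ_[p])‖
  set α := ‖(((v - 1).factorial : ℕ) : ℚ_[p])‖
  set β := ‖(((A - v - 1).factorial : ℕ) : ℚ_[p])‖
  set γ := ‖(((A - 1).factorial : ℕ) : ℚ_[p])‖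
  have e3 : A - 1 = (v - 1) + (A - v - 1) + 1 := by omega
  rw [e3, pow_add, pow_add, pow_one] at n1
  have hP : 0 < ((p : ℝ)⁻¹) ^ (v - 1) * ((p : ℝ)⁻¹) ^ (A - v - 1) := by positivity
  have n3 : (x * y) * (α * β * γ * (((p : ℝ)⁻¹) ^ (v - 1) * ((p : ℝ)⁻¹) ^ (A - v - 1))) =
      (p : ℝ)⁻¹ * (α * β * γ * (((p : ℝ)⁻¹) ^ (v - 1) * ((p : ℝ)⁻¹) ^ (A - v - 1))) := by
    calc _ = (x * (α * ((p : ℝ)⁻¹) ^ (v - 1)) * (β * ((p : ℝ)⁻¹) ^ (A - v - 1))) * (y * γ) := by ring
      _ = _ := by rw [n1, n2]; ring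
  have hpos : 0 < α * β * γ * (((p : ℝ)⁻¹) ^ (v - 1) * ((p : ℝ)⁻¹) ^ (A - v - 1)) := by positivity
  exact (mul_right_cancel₀ hpos.ne' n3).le

end

section
variable {n M p : ℕ} [Fact p.Prime]

/-- the values `a_i` -/
lemma norm_yi (hM : M < p) (i : ℕ) (s : Expo n) (hs : InCone M true s) (h1 : s 0 = 1) :
    ‖Ifun M (psi p (mon s * Fp (fun β : Grid n M => ((bin β : ℕ) : ℚ_[p])) ^ (p * (i + 1) - 1)))‖ ≤
      ‖((i.factorial : ℕ) : ℚ_[p])‖ * ((p : ℝ)⁻¹) ^ n := by
  have hp : 0 < p := (Fact.out : p.Prime).pos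
  have hu : ∀ k : Fin n, 0 < s k.succ ∧ s k.succ < M := by
    intro k
    have := hs k
    rw [h1, mul_one] at this
    exact this
  have hpi : 1 ≤ p * (i + 1) := Nat.mul_pos hp (by omega)
  have e0 : ∀ N : ℕ, Fp (fun β : Grid n M => ((bin β : ℕ) : ℚ_[p])) ^ N =
      Ep ℚ_[p] N 0 (fun _ => M * N) := by
    intro N
    rw [Fp_bin]
    induction N with
    | zero => rw [pow_zero]; unfold Ep; simp
    | succ N ih =>
      rw [pow_succ, ih, Ep_mul' (l2 := N + 1) (u2 := 0) (m2 := fun _ => M * (N + 1)) rfl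
        (fun k => by simp) (fun k => by ring)]
  have e1 : mon s * Fp (fun β : Grid n M => ((bin β : ℕ) : ℚ_[p])) ^ (p * (i + 1) - 1) =
      Ep ℚ_[p] (p * (i + 1)) (fun k => s k.succ) (fun _ => M * (p * (i + 1) - 1)) := by
    rw [e0, mon_eq_Ep, Ep_mul' (l2 := p * (i + 1)) (u2 := fun k => s k.succ)
      (m2 := fun _ => M * (p * (i + 1) - 1)) (by rw [h1]; omega) (fun k => by simp)
      (fun k => by simp)]
  set A := M * (i + 1) with hA
  have e2 : M * (p * (i + 1) - 1) = p * A - M := by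
    rw [Nat.mul_sub, mul_one, hA]
    congr 1
    ring
  have hA1 : M ≤ A := Nat.le_mul_of_pos_right M (by omega)
  have hpA : A ≤ p * A := Nat.le_mul_of_pos_left A hp
  rw [e1, e2, Ep_eq_PX (p * (i + 1)) _ _ (p * (A + 1)) (fun k => by
    have := hu k
    have h3 : p * (A + 1) = p * A + p := by ring
    rw [h3]
    omega), psi_PX hp, Ifun_PX, Nat.add_sub_cancel, norm_mul, norm_prod]
  apply mul_le_mul_of_nonneg_left _ (norm_nonneg _)
  have h3 : ∀ k ∈ (Finset.univ : Finset (Fin n)),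
      ‖∑ w ∈ Finset.range (A + 1), (if s k.succ ≤ p * w then
        ((p * A - M).choose (p * w - s k.succ) : ℚ_[p]) else 0) *
          algebraMap ℚ ℚ_[p] (bz M (i + 1) w)‖ ≤ (p : ℝ)⁻¹ := by
    intro k _
    apply norm_sum_le
    · have := hp0 (p := p)
      positivity
    intro w _
    have hpos : (0 : ℝ) ≤ (p : ℝ)⁻¹ := by
      have := hp0 (p := p)
      positivity
    unfold bz
    by_cases hw : 0 < w ∧ w < M * (i + 1)
    · rw [if_pos hw]
      have h4 : s k.succ ≤ p * w := by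
        have := hu k
        have h5 : p ≤ p * w := Nat.le_mul_of_pos_right p hw.1
        omega
      rw [if_pos h4]
      exact key_norm A M (s k.succ) w (hu k).1 (hu k).2 hM hw.1 hw.2
    · rw [if_neg hw, map_zero, mul_zero, norm_zero]
      exact hpos
  have h4 := Finset.prod_le_prod (fun k _ => norm_nonneg _) h3
  refine h4.trans ?_
  rw [Finset.prod_const, Finset.card_univ, Fintype.card_fin]

lemma map_psi {R S : Type} [CommRing R] [CommRing S] (φ : R →+* S) {p : ℕ} (hp : 0 < p)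
    (x : PP n R) : map φ (psi p x) = psi p (map φ x) := by
  ext t
  rw [coeff_map, coeff_psi hp, coeff_psi hp, coeff_map]

lemma Ifun_F_mul {R : Type} [CommRing R] [Algebra ℚ R] (hn : 1 ≤ n) (hM : 1 ≤ M) {l : ℕ}
    {x : PP n R} (hx : IsCone M true x) (hl : HasLev l x) :
    Ifun M (Fp (fun β : Grid n M => ((bin β : ℕ) : R)) * x) = (l : R) * Ifun M x := by
  have h := ifn_one (R := R) hn hM 0 x hx
  rw [Dop_apply, Ifun_sub, sub_eq_zero, H51.th_hasLev hl, Ifun_C_mul, Yp_zero] at h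
  exact h.symm

lemma Ifun_F_pow {R : Type} [CommRing R] [Algebra ℚ R] (hn : 1 ≤ n) (hM : 1 ≤ M) (i m : ℕ)
    {x : PP n R} (hx : IsCone M true x) (hl : HasLev (i + 1) x) :
    (i.factorial : R) * Ifun M (Fp (fun β : Grid n M => ((bin β : ℕ) : R)) ^ m * x) =
      ((i + m).factorial : R) * Ifun M x := by
  induction m with
  | zero => rw [pow_zero, one_mul, add_zero]
  | succ m ih =>
    have h1 : IsCone M true (Fp (fun β : Grid n M => ((bin β : ℕ) : R)) ^ m * x) := by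
      rw [mul_comm]
      exact isCone_mul hx (isCone_pow (isCone_Fp _) m)
    have h2 : HasLev (i + m + 1) (Fp (fun β : Grid n M => ((bin β : ℕ) : R)) ^ m * x) := by
      have := hasLev_mul (hasLev_pow (hasLev_Fp (fun β : Grid n M => ((bin β : ℕ) : R))) m) hl
      rw [mul_one] at this
      rw [show i + m + 1 = m + (i + 1) by ring]
      exact this
    rw [pow_succ', mul_assoc, Ifun_F_mul hn hM h1 h2, ← add_assoc, Nat.factorial_succ]
    push_cast at ih ⊢
    linear_combination ((i : R) + m + 1) * ih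

lemma psi_term {p : ℕ} (hp : 0 < p) {R : Type} [CommRing R] (F D y : PP n R)
    (hD : F ^ p = expand p F + C (p : R) * D) (j : ℕ) :
    psi p ((C (p : R) * D) ^ j * (y * F ^ (p - 1))) = ∑ m ∈ Finset.range (j + 1),
      C (((-1) ^ (j - m) * (j.choose m : R))) * (F ^ (j - m) * psi p (y * F ^ (p * (m + 1) - 1))) := by
  have h1 : C (p : R) * D = F ^ p + (- expand p F) := by rw [hD]; ring
  rw [h1, add_pow, Finset.sum_mul, H51.psi_sum hp]
  apply Finset.sum_congr rfl
  intro m _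
  have h2 : (F ^ p) ^ m * (-expand p F) ^ (j - m) * ((j.choose m : ℕ) : PP n R) *
      (y * F ^ (p - 1)) = C ((-1) ^ (j - m) * (j.choose m : R)) *
      (expand p (F ^ (j - m)) * (y * F ^ (p * (m + 1) - 1))) := by
    have h3 : p * (m + 1) - 1 = p * m + (p - 1) := by
      rw [mul_add, mul_one]
      omega
    rw [h3, pow_add, pow_mul, map_pow, neg_pow, C_mul, C_pow, C_neg, C_1, map_natCast]
    ring
  rw [h2, H51.psi_C_mul hp, H51.psi_expand_mul hp]

lemma psi_term2 {p : ℕ} (hp : 0 < p) {R : Type} [CommRing R] (F D y : PP n R)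
    (hD : F ^ p = expand p F + C (p : R) * D) (j : ℕ) (e x : R) (he : e = x * (p : R) ^ j) :
    psi p (C e * D ^ j * (C (p : R) * y * F ^ (p - 1))) = C ((p : R) * x) *
      ∑ m ∈ Finset.range (j + 1),
      C (((-1) ^ (j - m) * (j.choose m : R))) * (F ^ (j - m) * psi p (y * F ^ (p * (m + 1) - 1))) := by
  have h1 : C e * D ^ j * (C (p : R) * y * F ^ (p - 1)) =
      C ((p : R) * x) * ((C (p : R) * D) ^ j * (y * F ^ (p - 1))) := by
    rw [he, mul_pow, C_mul, C_mul, C_pow]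
    ring
  rw [h1, H51.psi_C_mul hp, psi_term hp F D y hD j]

lemma arith_fin (P c y : ℝ) (N : ℕ) (hP : 0 < P) (hc : c ≤ 1) (hy0 : 0 ≤ y)
    (hy : y ≤ (P⁻¹) ^ N) : P⁻¹ * c * y ≤ (P ^ (N + 1))⁻¹ := by
  have hPi : 0 < P⁻¹ := inv_pos.mpr hP
  calc P⁻¹ * c * y ≤ P⁻¹ * 1 * (P⁻¹) ^ N := by
        apply mul_le_mul _ hy hy0 (by positivity)
        exact mul_le_mul_of_nonneg_left hc hPi.le
    _ = (P ^ (N + 1))⁻¹ := by
        rw [pow_succ, mul_inv, inv_pow, mul_one, mul_comm]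

/-- VALI -/
theorem vali (hE : EeStmt) : ValiStmt := by
  intro n M p J _ hn hM hMp hp3 Dl hDl s hs h1
  have hp : 0 < p := (Fact.out : p.Prime).pos
  set F : PP n ℤ_[p] := Fp (fun β : Grid n M => ((bin β : ℕ) : ℤ_[p])) with hF
  set FQ : PP n ℚ_[p] := Fp (fun β : Grid n M => ((bin β : ℕ) : ℚ_[p])) with hFQ
  have hmF : map (zq p) F = FQ := by
    rw [hF, map_Fp, hFQ]
    simp only [map_natCast]
  set DQ : PP n ℚ_[p] := map (zq p) Dl with hDQ
  have hD : FQ ^ p = expand p FQ + C (p : ℚ_[p]) * DQ := by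
    have := congrArg (map (zq p)) hDl
    rw [map_pow, map_add, map_mul, map_C, map_natCast, map_expand] at this
    simp only [RingHom.id_apply] at this
    rw [← hF, hmF] at this
    exact this
  have hmm : mm p 1 = 1 := by
    unfold mm
    rw [Nat.add_sub_cancel_left, Nat.div_self hp]
  have hgam : gam p 1 = p := by
    unfold gam
    rw [if_neg one_ne_zero, hmm]
    simp
  have hPsi : map (zq p) (Psi p (RingHom.id ℤ_[p]) J F Dl (mon s)) = ∑ j ∈ Finset.range J,
      psi p (C (zq p (ee p j)) * DQ ^ j * (C (p : ℚ_[p]) * mon s * FQ ^ (p - 1))) := by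
    unfold Psi TJ
    rw [map_psi _ hp, map_mul, map_sum, Finset.sum_mul, H51.psi_sum hp]
    apply Finset.sum_congr rfl
    intro j _
    have h2 : HasLev 1 (mon s : PP n ℤ_[p]) := by
      have := hasLev_mon (R := ℤ_[p]) s
      rwa [h1] at this
    rw [H51.VV_hom p F h2, hmm, hgam, mul_one, map_mul, map_mul, map_mul, map_pow, map_pow, map_C,
      map_C, map_mon, hmF, map_natCast]
    rfl
  rw [hPsi, Ifun_sum]
  have hpos : (0 : ℝ) ≤ ((p : ℝ) ^ (n + 1))⁻¹ := by positivity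
  apply norm_sum_le _ _ hpos
  intro j _
  have hjf : ((j.factorial : ℕ) : ℚ_[p]) ≠ 0 := by exact_mod_cast j.factorial_ne_zero
  have hej : ((j.factorial : ℕ) : ℚ_[p]) * zq p (ee p j) = (-(p : ℚ_[p])) ^ j := by
    have := congrArg (zq p) ((hE p hp3).2.1 j)
    rw [map_mul, map_natCast, map_pow, map_neg, map_natCast] at this
    exact this
  have hej' : zq p (ee p j) = (-1) ^ j / ((j.factorial : ℕ) : ℚ_[p]) * (p : ℚ_[p]) ^ j := by
    rw [div_mul_eq_mul_div, eq_div_iff hjf, mul_comm, hej, neg_pow]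
  have hterm : psi p (C (zq p (ee p j)) * DQ ^ j * (C (p : ℚ_[p]) * mon s * FQ ^ (p - 1))) =
      C ((p : ℚ_[p]) * ((-1) ^ j / ((j.factorial : ℕ) : ℚ_[p]))) *
        ∑ m ∈ Finset.range (j + 1), C (((-1) ^ (j - m) * (j.choose m : ℚ_[p]))) *
          (FQ ^ (j - m) * psi p (mon s * FQ ^ (p * (m + 1) - 1))) := by
    exact psi_term2 hp FQ DQ (mon s) hD j _ _ hej'
  rw [hterm, Ifun_C_mul, Ifun_sum, Finset.mul_sum]
  apply norm_sum_le _ _ hpos
  intro m hm
  rw [Finset.mem_range] at hm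
  have hmf : ((m.factorial : ℕ) : ℚ_[p]) ≠ 0 := by exact_mod_cast m.factorial_ne_zero
  have hyc : IsCone M true (psi p (mon s * FQ ^ (p * (m + 1) - 1))) := by
    apply H51.isCone_psi hp
    exact isCone_mul (isCone_mon hs) (isCone_pow (isCone_Fp _) _)
  have hyl : HasLev (m + 1) (psi p (mon s * FQ ^ (p * (m + 1) - 1))) := by
    apply H51.hasLev_psi hp
    have := hasLev_mul (hasLev_mon (R := ℚ_[p]) s) (hasLev_pow (hasLev_Fp
      (fun β : Grid n M => ((bin β : ℕ) : ℚ_[p]))) (p * (m + 1) - 1))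
    rw [h1, mul_one] at this
    have h3 : 1 ≤ p * (m + 1) := Nat.mul_pos hp (by omega)
    rw [show p * (m + 1) = 1 + (p * (m + 1) - 1) by omega]
    have h4 : p * (m + 1) - 1 = 1 + (p * (m + 1) - 1) - 1 := by omega
    rw [← h4]
    exact this
  have hI := Ifun_F_pow (R := ℚ_[p]) hn (by omega : 1 ≤ M) m (j - m) hyc hyl
  rw [show m + (j - m) = j by omega, ← hFQ] at hI
  have hI' : Ifun M (FQ ^ (j - m) * psi p (mon s * FQ ^ (p * (m + 1) - 1))) =
      ((j.factorial : ℕ) : ℚ_[p]) / ((m.factorial : ℕ) : ℚ_[p]) *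
        Ifun M (psi p (mon s * FQ ^ (p * (m + 1) - 1))) := by
    rw [div_mul_eq_mul_div, eq_div_iff hmf, mul_comm]
    exact hI
  rw [Ifun_C_mul, hI']
  have hy := norm_yi (n := n) (M := M) (p := p) hMp m s hs h1
  rw [← hFQ] at hy
  have e5 : (p : ℚ_[p]) * ((-1) ^ j / ((j.factorial : ℕ) : ℚ_[p])) *
      ((-1) ^ (j - m) * ((j.choose m : ℕ) : ℚ_[p]) * (((j.factorial : ℕ) : ℚ_[p]) /
        ((m.factorial : ℕ) : ℚ_[p]) * Ifun M (psi p (mon s * FQ ^ (p * (m + 1) - 1))))) =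
      (p : ℚ_[p]) * ((-1) ^ j * (-1) ^ (j - m)) * ((j.choose m : ℕ) : ℚ_[p]) *
        (Ifun M (psi p (mon s * FQ ^ (p * (m + 1) - 1))) / ((m.factorial : ℕ) : ℚ_[p])) := by
    field_simp
  rw [e5, norm_mul, norm_mul, norm_mul, norm_mul, norm_pow, norm_pow, norm_neg, norm_one, one_pow,
    one_pow, mul_one, mul_one, Padic.norm_p, norm_div]
  have h6 : ‖((j.choose m : ℕ) : ℚ_[p])‖ ≤ 1 := by
    have := Padic.norm_int_le_one (p := p) ((j.choose m : ℕ) : ℤ)
    simpa using this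
  have h7 : 0 < ‖((m.factorial : ℕ) : ℚ_[p])‖ := norm_pos_iff.mpr hmf
  have h8 : ‖Ifun M (psi p (mon s * FQ ^ (p * (m + 1) - 1)))‖ / ‖((m.factorial : ℕ) : ℚ_[p])‖ ≤
      ((p : ℝ)⁻¹) ^ n := by
    rw [div_le_iff₀ h7, mul_comm (((p : ℝ)⁻¹) ^ n)]
    exact hy
  exact arith_fin _ _ _ _ hp0 h6 (div_nonneg (norm_nonneg _) (norm_nonneg _)) h8

end

end Pool.Agent.Helper95_CM.H98
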